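import Pool.Agent.V11320.CW.LO

set_option autoImplicit false

open MeasureTheory ProbabilityTheory Filter Topology
open scoped ENNReal

namespace Pool.Agent.V11320.CW

/-- sample space: refresh indicators, fresh axes, fresh signs -/
abbrev Om (d : ℕ) := (ℕ → Bool) × ((ℕ → Fin d) × (ℕ → Bool))

/-- law of iid uniform axes -/
noncomputable def axLaw (d : ℕ) [NeZero d] : Measure (ℕ → Fin d) :=
  Measure.infinitePi fun _ => uniformOn (Set.univ : Set (Fin d))

instance uip (d : ℕ) [NeZero d] : IsProbabilityMeasure (uniformOn (Set.univ : Set (Fin d))) :=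
  isProbabilityMeasure_uniformOn Set.finite_univ Set.univ_nonempty

instance (d : ℕ) [NeZero d] : IsProbabilityMeasure (axLaw d) := by
  unfold axLaw; infer_instance

/-- law of the refresh indicators -/
noncomputable def refLaw (p : ℕ → unitInterval) : Measure (ℕ → Bool) :=
  Measure.infinitePi fun n => ber (p n)

instance (p : ℕ → unitInterval) : IsProbabilityMeasure (refLaw p) := by
  unfold refLaw; infer_instance

/-- law on the sample space -/
noncomputable def crw (d : ℕ) [NeZero d] (p : ℕ → unitInterval) : Measure (Om d) :=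
  (refLaw p).prod ((axLaw d).prod sgnLaw)

/-- direction (axis, sign) of step `n` (steps are numbered from 0) -/
def dir {d : ℕ} (w : Om d) : ℕ → Fin d × Bool
  | 0 => (w.2.1 0, w.2.2 0)
  | n + 1 => if w.1 (n + 1) = true then (w.2.1 (n + 1), w.2.2 (n + 1)) else dir w n

/-- position after `n` steps -/
def pos {d : ℕ} (w : Om d) (n : ℕ) (j : Fin d) : ℤ :=
  ∑ k ∈ Finset.range n, if (dir w k).1 = j then sg (dir w k).2 else 0

/-- strong transience -/
def StrTrans (d : ℕ) [NeZero d] (p : ℕ → unitInterval) : Prop :=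
  ∀ᵐ w ∂(crw d p), Tendsto (fun n => Real.sqrt (∑ j, (pos w n j : ℝ)^2)) atTop atTop

lemma measurable_dir {d : ℕ} (n : ℕ) : Measurable fun w : Om d => dir w n := by
  induction n with
  | zero => unfold dir; fun_prop
  | succ n ih =>
    unfold dir
    refine Measurable.ite ?_ (by fun_prop) ih
    exact measurableSet_eq_fun (by fun_prop) measurable_const

lemma measurable_pos {d : ℕ} (n : ℕ) (j : Fin d) : Measurable fun w : Om d => pos w n j := by
  unfold pos
  refine Finset.measurable_sum _ fun k _ => ?_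
  have : (fun w : Om d => if (dir w k).1 = j then sg (dir w k).2 else 0) =
    (fun x : Fin d × Bool => if x.1 = j then sg x.2 else 0) ∘ fun w => dir w k := rfl
  rw [this]
  exact (measurable_of_countable _).comp (measurable_dir k)

/-- last refresh time -/
def last (ξ : ℕ → Bool) : ℕ → ℕ
  | 0 => 0
  | n + 1 => if ξ (n + 1) = true then n + 1 else last ξ n

/-- refresh times -/
def Rf (ξ : ℕ → Bool) (r : ℕ) : Prop := r = 0 ∨ ξ r = true

instance (ξ : ℕ → Bool) : DecidablePred (Rf ξ) := fun r => by unfold Rf; infer_instance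

lemma dir_eq {d : ℕ} (w : Om d) (n : ℕ) : dir w n = (w.2.1 (last w.1 n), w.2.2 (last w.1 n)) := by
  induction n with
  | zero => rfl
  | succ n ih =>
    unfold dir last
    by_cases h : w.1 (n+1) = true
    · rw [if_pos h, if_pos h]
    · rw [if_neg h, if_neg h, ih]

lemma last_le (ξ : ℕ → Bool) (n : ℕ) : last ξ n ≤ n := by
  induction n with
  | zero => simp [last]
  | succ n ih => unfold last; split_ifs <;> omega

lemma last_Rf (ξ : ℕ → Bool) (n : ℕ) : Rf ξ (last ξ n) := by
  induction n with
  | zero => left; rfl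
  | succ n ih =>
    unfold last
    by_cases h : ξ (n+1) = true
    · rw [if_pos h]; exact Or.inr h
    · rw [if_neg h]; exact ih

lemma last_self (ξ : ℕ → Bool) (r : ℕ) (h : Rf ξ r) : last ξ r = r := by
  cases r with
  | zero => rfl
  | succ r =>
    unfold last
    rw [if_pos]
    rcases h with h | h
    · omega
    · exact h

lemma last_mono (ξ : ℕ → Bool) : Monotone (last ξ) := by
  refine monotone_nat_of_le_succ fun n => ?_
  have := last_le ξ n
  show last ξ n ≤ last ξ (n+1)
  conv_rhs => unfold last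
  split_ifs <;> omega

lemma last_const (ξ : ℕ → Bool) (n k : ℕ) (h1 : last ξ n ≤ k) (h2 : k ≤ n) :
    last ξ k = last ξ n := by
  apply le_antisymm (last_mono ξ h2)
  have := last_mono ξ h1
  rwa [last_self ξ _ (last_Rf ξ n)] at this

lemma pos_eq {d : ℕ} (w : Om d) (n : ℕ) (j : Fin d) : pos w n j =
    ∑ k ∈ Finset.range n, if w.2.1 (last w.1 k) = j then sg (w.2.2 (last w.1 k)) else 0 := by
  unfold pos
  refine Finset.sum_congr rfl fun k _ => ?_
  rw [dir_eq]

/-- position inside a segment -/
lemma pos_seg {d : ℕ} (w : Om d) (n : ℕ) (j : Fin d) :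
    pos w (n+1) j = pos w (last w.1 n) j + ((n + 1 - last w.1 n : ℕ) : ℤ) *
      (if w.2.1 (last w.1 n) = j then sg (w.2.2 (last w.1 n)) else 0) := by
  have hle := last_le w.1 n
  rw [pos_eq, pos_eq, ← Finset.sum_range_add_sum_Ico _ (show last w.1 n ≤ n+1 by omega)]
  congr 1
  rw [Finset.sum_congr rfl (g := fun _ => if w.2.1 (last w.1 n) = j then
    sg (w.2.2 (last w.1 n)) else 0)]
  · rw [Finset.sum_const, Nat.card_Ico, nsmul_eq_mul]
  · intro k hk
    rw [Finset.mem_Ico] at hk
    rw [last_const w.1 n k hk.1 (by omega)]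

/-- length of segment `i` seen before time `r` -/
def len (ξ : ℕ → Bool) (r i : ℕ) : ℕ := ((Finset.range r).filter fun k => last ξ k = i).card

/-- refresh times before `r` with axis `j` -/
def idx {d : ℕ} (ξ : ℕ → Bool) (J : ℕ → Fin d) (r : ℕ) (j : Fin d) : Finset ℕ :=
  (Finset.range r).filter fun i => Rf ξ i ∧ J i = j

lemma len_pos {d : ℕ} (ξ : ℕ → Bool) (J : ℕ → Fin d) (r : ℕ) (j : Fin d) (i : ℕ)
    (hi : i ∈ idx ξ J r j) : 0 < len ξ r i := by
  unfold idx at hi
  rw [Finset.mem_filter] at hi
  exact Finset.card_pos.2 ⟨i, Finset.mem_filter.2 ⟨hi.1, last_self ξ i hi.2.1⟩⟩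

lemma pos_idx {d : ℕ} (w : Om d) (r : ℕ) (j : Fin d) :
    pos w r j = ∑ i ∈ idx w.1 w.2.1 r j, sg (w.2.2 i) * (len w.1 r i : ℤ) := by
  rw [pos_eq]
  have hmaps : ∀ k ∈ Finset.range r, last w.1 k ∈ (Finset.range r).filter (Rf w.1) := by
    intro k hk
    have := last_le w.1 k
    rw [Finset.mem_range] at hk
    exact Finset.mem_filter.2 ⟨Finset.mem_range.2 (by omega), last_Rf _ _⟩
  rw [← Finset.sum_fiberwise_of_maps_to hmaps]
  have e : idx w.1 w.2.1 r j = ((Finset.range r).filter (Rf w.1)).filter (fun i => w.2.1 i = j) := by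
    unfold idx; rw [Finset.filter_filter]
  rw [e, Finset.sum_filter (s := (Finset.range r).filter (Rf w.1))]
  refine Finset.sum_congr rfl fun i _ => ?_
  rw [Finset.sum_congr rfl (g := fun _ => if w.2.1 i = j then sg (w.2.2 i) else 0)]
  · rw [Finset.sum_const, nsmul_eq_mul]
    unfold len
    split_ifs <;> ring
  · intro k hk
    rw [(Finset.mem_filter.1 hk).2]

lemma idx_disj {d : ℕ} (ξ : ℕ → Bool) (J : ℕ → Fin d) (r : ℕ) (j j' : Fin d) (h : j ≠ j') :
    Disjoint (idx ξ J r j) (idx ξ J r j') := by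
  rw [Finset.disjoint_left]
  intro i h1 h2
  unfold idx at h1 h2
  rw [Finset.mem_filter] at h1 h2
  exact h (h1.2.2.symm.trans h2.2.2)

/-- the visit event -/
def Bs {d : ℕ} (z : Fin d → ℤ) (r : ℕ) : Set (Om d) :=
  {w | Rf w.1 r ∧ ∀ j, j ≠ w.2.1 r → pos w r j = z j}

lemma measurableSet_Bs {d : ℕ} (z : Fin d → ℤ) (r : ℕ) : MeasurableSet (Bs z r) := by
  have : Bs z r = ({w : Om d | r = 0} ∪ {w | w.1 r = true}) ∩
      ⋂ j, ({w : Om d | w.2.1 r = j} ∪ {w | pos w r j = z j}) := by
    ext w
    simp only [Bs, Rf, Set.mem_ofPred_eq, Set.mem_inter_iff, Set.mem_union, Set.mem_iInter]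
    refine and_congr Iff.rfl (forall_congr' fun j => ?_)
    constructor
    · intro h
      by_cases h1 : w.2.1 r = j
      · exact Or.inl h1
      · exact Or.inr (h fun h2 => h1 h2.symm)
    · rintro (h | h) h2
      · exact absurd h.symm h2
      · exact h
  rw [this]
  refine MeasurableSet.inter (MeasurableSet.union (MeasurableSet.const _)
    (measurableSet_eq_fun (by fun_prop) measurable_const)) ?_
  refine MeasurableSet.iInter fun j => MeasurableSet.union
    (measurableSet_eq_fun (by fun_prop) measurable_const)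
    (measurableSet_eq_fun (measurable_pos r j) measurable_const)

/-- deterministic conclusion -/
lemma tendsto_of_Bs {d : ℕ} (w : Om d) (h : ∀ z : Fin d → ℤ, ∀ᶠ r in atTop, w ∉ Bs z r) :
    Tendsto (fun n => Real.sqrt (∑ j, (pos w n j : ℝ)^2)) atTop atTop := by
  have hfin : ∀ z : Fin d → ℤ, {n | (fun j => pos w n j) = z}.Finite := by
    intro z
    obtain ⟨R, hR⟩ := eventually_atTop.1 (h z)
    have hsub : {n | (fun j => pos w n j) = z} ⊆ insert 0 ((fun n => n + 1) ''
        {n | (fun j => pos w (n+1) j) = z}) := by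
      intro n hn
      cases n with
      | zero => exact Set.mem_insert _ _
      | succ n => exact Set.mem_insert_of_mem _ ⟨n, hn, rfl⟩
    refine Set.Finite.subset (Set.Finite.insert _ (Set.Finite.image _ ?_)) hsub
    apply Set.Finite.of_finite_image (f := last w.1)
    · apply (Set.finite_lt_nat R).subset
      rintro r ⟨n, hn, rfl⟩
      by_contra hlt
      apply hR (last w.1 n) (not_lt.1 hlt)
      refine ⟨last_Rf _ _, fun j hj => ?_⟩
      have h1 : pos w (n+1) j = z j := congrFun hn j
      rw [pos_seg, if_neg (fun h => hj h.symm)] at h1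
      simpa using h1
    · intro n hn m hm hnm
      have h1 : pos w (n+1) (w.2.1 (last w.1 n)) = z _ := congrFun hn (w.2.1 (last w.1 n))
      have h2 : pos w (m+1) (w.2.1 (last w.1 n)) = z _ := congrFun hm (w.2.1 (last w.1 n))
      have hnm : last w.1 n = last w.1 m := hnm
      rw [pos_seg] at h1 h2
      rw [← hnm] at h2
      rw [← h2] at h1
      have h3 := add_left_cancel h1
      rw [if_pos rfl] at h3
      have hs : sg (w.2.2 (last w.1 n)) ≠ 0 := by unfold sg; split_ifs <;> norm_num
      have h4 := mul_right_cancel₀ hs h3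
      have h5 : n + 1 - last w.1 n = m + 1 - last w.1 n := by exact_mod_cast h4
      have h6 := last_le w.1 n
      have h7 := last_le w.1 m
      rw [← hnm] at h7
      omega
  rw [tendsto_atTop]
  intro K
  obtain ⟨K', hK'⟩ := exists_nat_gt K
  have hbox : (Set.Icc (fun _ : Fin d => (-(K':ℤ))) (fun _ => (K':ℤ))).Finite := Set.finite_Icc _ _
  have hbad : {n | ¬ K ≤ Real.sqrt (∑ j, (pos w n j : ℝ)^2)}.Finite := by
    refine Set.Finite.subset (hbox.biUnion fun z _ => hfin z) ?_
    intro n hn
    simp only [Set.mem_ofPred_eq, not_le] at hn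
    rw [Set.mem_iUnion₂]
    refine ⟨fun j => pos w n j, ?_, rfl⟩
    have hj : ∀ j, |(pos w n j : ℝ)| < K' := by
      intro j
      have h1 : |(pos w n j : ℝ)| ≤ Real.sqrt (∑ j, (pos w n j : ℝ)^2) := by
        rw [← Real.sqrt_sq_eq_abs]
        exact Real.sqrt_le_sqrt (Finset.single_le_sum (f := fun j => (pos w n j : ℝ)^2)
          (fun i _ => sq_nonneg _) (Finset.mem_univ j))
      linarith
    have hj' : ∀ j, |pos w n j| < K' := by
      intro j
      have := hj j
      exact_mod_cast this
    constructor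
    · intro j
      exact (abs_lt.1 (hj' j)).1.le
    · intro j
      exact (abs_lt.1 (hj' j)).2.le
  have := hbad.compl_mem_cofinite
  rw [Nat.cofinite_eq_atTop] at this
  filter_upwards [this] with n hn
  by_contra hc
  exact hn hc

end Pool.Agent.V11320.CW
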