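import Pool.Agent.V11320.CW.ThreeA

set_option autoImplicit false

open MeasureTheory ProbabilityTheory Filter Topology
open scoped ENNReal

namespace Pool.Agent.V11320.CW

/-- earlier refresh times -/
def Rs (ξ : ℕ → Bool) (r : ℕ) : Finset ℕ := (Finset.range r).filter (Rf ξ)

/-- earlier refresh times of at least the present scale -/
def Bg (ξ : ℕ → Bool) (hh : ℕ → ℕ) (r : ℕ) : Finset ℕ := (Rs ξ r).filter fun i => hh r ≤ hh i

/-- earlier scales -/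
def Sc (ξ : ℕ → Bool) (hh : ℕ → ℕ) (r : ℕ) : Finset ℕ := (Rs ξ r).image hh

lemma Rs_mono (ξ : ℕ → Bool) {r r' : ℕ} (h : r ≤ r') : Rs ξ r ⊆ Rs ξ r' := by
  unfold Rs
  exact Finset.filter_subset_filter _ (Finset.range_mono h)

lemma mem_Rs (ξ : ℕ → Bool) {r r' : ℕ} (h : r < r') (hr : Rf ξ r) : r ∈ Rs ξ r' := by
  unfold Rs
  exact Finset.mem_filter.2 ⟨Finset.mem_range.2 h, hr⟩

lemma notMem_Rs (ξ : ℕ → Bool) (r : ℕ) : r ∉ Rs ξ r := by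
  unfold Rs; simp

lemma n_inj (ξ : ℕ → Bool) : Set.InjOn (fun r => (Rs ξ r).card) {r | Rf ξ r} := by
  have key : ∀ r r', Rf ξ r → r < r' → (Rs ξ r).card < (Rs ξ r').card := by
    intro r r' hr h
    apply Finset.card_lt_card
    exact Finset.ssubset_iff_subset_ne.2 ⟨Rs_mono ξ h.le, fun he =>
      notMem_Rs ξ r (he ▸ mem_Rs ξ h hr)⟩
  intro r hr r' hr' h
  simp only at h
  rcases lt_trichotomy r r' with h1 | h1 | h1
  · have := key r r' hr h1; omega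
  · exact h1
  · have := key r' r hr' h1; omega

lemma m_lt (ξ : ℕ → Bool) (hh : ℕ → ℕ) (r r' : ℕ) (hr : Rf ξ r) (h : r < r')
    (he : hh r = hh r') : (Bg ξ hh r).card < (Bg ξ hh r').card := by
  apply Finset.card_lt_card
  refine Finset.ssubset_iff_subset_ne.2 ⟨?_, fun he2 => ?_⟩
  · intro i hi
    unfold Bg at hi ⊢
    rw [Finset.mem_filter] at hi ⊢
    exact ⟨Rs_mono ξ h.le hi.1, he ▸ hi.2⟩
  · have : r ∈ Bg ξ hh r' := by
      unfold Bg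
      exact Finset.mem_filter.2 ⟨mem_Rs ξ h hr, he.symm.le⟩
    rw [← he2] at this
    unfold Bg at this
    exact notMem_Rs ξ r (Finset.mem_filter.1 this).1

/-- first refresh time of the same scale -/
noncomputable def fs (ξ : ℕ → Bool) (hh : ℕ → ℕ) (r : ℕ) : ℕ :=
  sInf {i | Rf ξ i ∧ hh i = hh r}

noncomputable def jj (ξ : ℕ → Bool) (hh : ℕ → ℕ) (r : ℕ) : ℕ := (Sc ξ hh (fs ξ hh r)).card

lemma fs_spec (ξ : ℕ → Bool) (hh : ℕ → ℕ) (r : ℕ) (hr : Rf ξ r) :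
    Rf ξ (fs ξ hh r) ∧ hh (fs ξ hh r) = hh r :=
  Nat.sInf_mem (s := {i | Rf ξ i ∧ hh i = hh r}) ⟨r, hr, rfl⟩

lemma fs_le (ξ : ℕ → Bool) (hh : ℕ → ℕ) (r : ℕ) (i : ℕ) (hi : Rf ξ i) (h : hh i = hh r) :
    fs ξ hh r ≤ i := Nat.sInf_le (s := {i | Rf ξ i ∧ hh i = hh r}) ⟨hi, h⟩

lemma Sc_mono (ξ : ℕ → Bool) (hh : ℕ → ℕ) {r r' : ℕ} (h : r ≤ r') : Sc ξ hh r ⊆ Sc ξ hh r' := by
  unfold Sc
  exact Finset.image_subset_image (Rs_mono ξ h)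

lemma jj_le (ξ : ℕ → Bool) (hh : ℕ → ℕ) (r : ℕ) (hr : Rf ξ r) :
    jj ξ hh r ≤ (Sc ξ hh r).card :=
  Finset.card_le_card (Sc_mono ξ hh (fs_le ξ hh r r hr rfl))

lemma jj_inj (ξ : ℕ → Bool) (hh : ℕ → ℕ) (r r' : ℕ) (hr : Rf ξ r) (hr' : Rf ξ r')
    (h : jj ξ hh r = jj ξ hh r') : hh r = hh r' := by
  have key : ∀ r r', Rf ξ r → Rf ξ r' → fs ξ hh r < fs ξ hh r' → jj ξ hh r < jj ξ hh r' := by
    intro r r' hr hr' hlt
    unfold jj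
    apply Finset.card_lt_card
    refine Finset.ssubset_iff_subset_ne.2 ⟨Sc_mono ξ hh hlt.le, fun he => ?_⟩
    have h1 : hh r ∈ Sc ξ hh (fs ξ hh r') := by
      unfold Sc
      exact Finset.mem_image.2 ⟨fs ξ hh r, mem_Rs ξ hlt (fs_spec ξ hh r hr).1,
        (fs_spec ξ hh r hr).2⟩
    rw [← he] at h1
    unfold Sc at h1
    obtain ⟨i, hi, hi2⟩ := Finset.mem_image.1 h1
    unfold Rs at hi
    have hi3 := Finset.mem_filter.1 hi
    have := fs_le ξ hh r i hi3.2 hi2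
    have := Finset.mem_range.1 hi3.1
    omega
  rcases lt_trichotomy (fs ξ hh r) (fs ξ hh r') with h1 | h1 | h1
  · have := key r r' hr hr' h1; omega
  · rw [← (fs_spec ξ hh r hr).2, h1, (fs_spec ξ hh r' hr').2]
  · have := key r' r hr' hr h1; omega

lemma mj_inj (ξ : ℕ → Bool) (hh : ℕ → ℕ) :
    Set.InjOn (fun r => ((Bg ξ hh r).card, jj ξ hh r)) {r | Rf ξ r} := by
  intro r hr r' hr' h
  rw [Prod.mk.injEq] at h
  have he := jj_inj ξ hh r r' hr hr' h.2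
  rcases lt_trichotomy r r' with h1 | h1 | h1
  · have := m_lt ξ hh r r' hr h1 he; omega
  · exact h1
  · have := m_lt ξ hh r' r hr' h1 he.symm; omega

lemma tsum_inj {ι : Type} (P : ℕ → Prop) [DecidablePred P] (f : ℕ → ι)
    (hf : Set.InjOn f {r | P r}) (g : ι → ℝ≥0∞) :
    ∑' r, (if P r then g (f r) else 0) ≤ ∑' i, g i := by
  have h1 : ∑' r, (if P r then g (f r) else 0) = ∑' r : {r | P r}, g (f r) := by
    rw [tsum_subtype {r | P r} (fun r => g (f r))]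
    congr 1
    ext r
    simp [Set.indicator_apply]
  rw [h1]
  exact ENNReal.tsum_comp_le_tsum_of_injective (f := fun r : {r | P r} => f r) hf.injective g

lemma fin_of_summable {ι : Type} (f : ι → ℝ) (h0 : ∀ i, 0 ≤ f i) (hs : Summable f) :
    ∑' i, ENNReal.ofReal (f i) ≠ ∞ := by
  rw [← ENNReal.ofReal_tsum_of_nonneg h0 hs]; exact ENNReal.ofReal_ne_top

lemma xb (n : ℕ) : (2:ℝ)^(n/8) * (5/6)^n ≤ (10/11)^n := by
  have h1 : (2:ℝ)^(n/8) ≤ (12/11)^n := by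
    calc (2:ℝ)^(n/8) ≤ ((12/11)^8)^(n/8) := by gcongr; norm_num
      _ = (12/11)^(8 * (n/8)) := by rw [← pow_mul]
      _ ≤ (12/11)^n := pow_le_pow_right₀ (by norm_num) (by omega)
  calc (2:ℝ)^(n/8) * (5/6)^n ≤ (12/11)^n * (5/6)^n := by gcongr
    _ = (10/11)^n := by rw [← mul_pow]; norm_num

lemma geo_gw (m : ℕ) : ((10:ℝ)/11)^m ≤ 10 * gw m := by
  have h1 : (1:ℝ) + m * (1/10) ≤ (1 + 1/10)^m :=
    one_add_mul_le_pow (by norm_num) m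
  have h2 : ((m:ℝ)+1)/10 ≤ (11/10)^m := by
    have e : (1:ℝ) + 1/10 = 11/10 := by norm_num
    rw [e] at h1
    linarith
  have hm : (0:ℝ) < m + 1 := by positivity
  have h3 : ((10:ℝ)/11)^m ≤ 10 / (m+1) := by
    have e : ((10:ℝ)/11)^m = 1/(11/10)^m := by
      rw [← one_div_pow]; norm_num
    rw [e, div_le_div_iff₀ (by positivity) hm]
    linarith
  refine h3.trans ?_
  unfold gw
  rw [mul_one_div]
  apply div_le_div_of_nonneg_left (by norm_num) (Real.sqrt_pos.2 hm)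
  rw [Real.sqrt_le_left hm.le]
  nlinarith [(Nat.cast_nonneg m : (0:ℝ) ≤ m)]

lemma B1_bound (n m : ℕ) : 4 * (2^(n/8) * (5/6)^n) + 27 * (gw n)^2 * gw m +
      9 * (gw n)^2 * (2^(m/8) * (5/6)^m) ≤ 4 * (10/11:ℝ)^n + 117 * ((gw n)^2 * gw m) := by
  have h1 := xb n
  have h2 := (xb m).trans (geo_gw m)
  have := gw_pos n
  have h3 : 9 * (gw n)^2 * (2^(m/8) * (5/6)^m) ≤ 9 * (gw n)^2 * (10 * gw m) :=
    mul_le_mul_of_nonneg_left h2 (by positivity)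
  linarith

lemma gsq (n : ℕ) : (gw n)^2 = 1/((n:ℝ)+1) := by
  unfold gw
  rw [div_pow, Real.sq_sqrt (by positivity), one_pow]

lemma wt (n m j s : ℕ) (hm : m ≤ n) (hj : j ≤ s) (hs : (s+1)^8 ≤ n+1) :
    (gw n)^2 * gw m ≤ (1 / ((m:ℝ)+1)^(5/4:ℝ)) * (1/((j:ℝ)+1)^2) := by
  have hn : (0:ℝ) < n + 1 := by positivity
  have hm0 : (0:ℝ) < m + 1 := by positivity
  have h1 : ((m:ℝ)+1)^(3/4:ℝ) ≤ ((n:ℝ)+1)^(3/4:ℝ) := by
    apply Real.rpow_le_rpow hm0.le _ (by norm_num)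
    have : (m:ℝ) ≤ n := by exact_mod_cast hm
    linarith
  have h2 : ((j:ℝ)+1)^2 ≤ ((n:ℝ)+1)^(1/4:ℝ) := by
    have h3 : ((j:ℝ)+1)^8 ≤ (n:ℝ)+1 := by
      have : (j+1)^8 ≤ n+1 := (Nat.pow_le_pow_left (by omega) 8).trans hs
      exact_mod_cast this
    calc ((j:ℝ)+1)^2 = (((j:ℝ)+1)^8)^(1/4:ℝ) := by
          rw [← Real.rpow_natCast, ← Real.rpow_natCast, ← Real.rpow_mul (by positivity)]
          norm_num
      _ ≤ _ := Real.rpow_le_rpow (by positivity) h3 (by norm_num)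
  have h4 : ((m:ℝ)+1)^(3/4:ℝ) * ((j:ℝ)+1)^2 ≤ (n:ℝ)+1 := by
    calc ((m:ℝ)+1)^(3/4:ℝ) * ((j:ℝ)+1)^2 ≤ ((n:ℝ)+1)^(3/4:ℝ) * ((n:ℝ)+1)^(1/4:ℝ) :=
          mul_le_mul h1 h2 (by positivity) (by positivity)
      _ = (n:ℝ)+1 := by
          rw [← Real.rpow_add hn]; norm_num
  rw [gsq]
  unfold gw
  rw [Real.sqrt_eq_rpow, div_mul_div_comm, div_mul_div_comm, one_mul]
  apply one_div_le_one_div_of_le (by positivity)
  have e : ((m:ℝ)+1)^(5/4:ℝ) = ((m:ℝ)+1)^(3/4:ℝ) * ((m:ℝ)+1)^(1/2:ℝ) := by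
    rw [← Real.rpow_add hm0]; norm_num
  rw [e]
  calc ((m:ℝ)+1)^(3/4:ℝ) * ((m:ℝ)+1)^(1/2:ℝ) * ((j:ℝ)+1)^2
      = (((m:ℝ)+1)^(3/4:ℝ) * ((j:ℝ)+1)^2) * ((m:ℝ)+1)^(1/2:ℝ) := by ring
    _ ≤ ((n:ℝ)+1) * ((m:ℝ)+1)^(1/2:ℝ) := by gcongr

lemma pw : ∃ C : ℝ, 0 ≤ C ∧ ∀ s n : ℕ, n + 1 < (s+1)^8 → (5/6:ℝ)^(s/2) ≤ C * (1/((n:ℝ)+1)^2) := by
  have ht := tendsto_pow_const_mul_const_pow_of_abs_lt_one 16 (r := (5/6:ℝ))
    (by rw [abs_of_pos (by norm_num)]; norm_num)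
  obtain ⟨C0, hC0⟩ := ht.bddAbove_range
  have hC : ∀ q : ℕ, (q:ℝ)^16 * (5/6)^q ≤ C0 := fun q => hC0 ⟨q, rfl⟩
  have hC00 : 0 ≤ C0 := le_trans (by positivity) (hC 0)
  refine ⟨2^16 * (6/5 * C0), by positivity, fun s n h => ?_⟩
  have h1 := hC (s/2+1)
  have h2 : ((n:ℝ)+1)^2 ≤ 2^16 * ((s/2 : ℕ) + 1 : ℝ)^16 := by
    have h3 : (n+1)^2 ≤ 2^16 * (s/2+1)^16 := by
      calc (n+1)^2 ≤ ((s+1)^8)^2 := Nat.pow_le_pow_left h.le 2
        _ = (s+1)^16 := by rw [← pow_mul]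
        _ ≤ (2 * (s/2+1))^16 := Nat.pow_le_pow_left (by omega) 16
        _ = 2^16 * (s/2+1)^16 := by rw [mul_pow]
    exact_mod_cast h3
  rw [mul_one_div, le_div_iff₀ (by positivity)]
  have e : (5/6:ℝ)^(s/2) = 6/5 * (5/6)^(s/2+1) := by rw [pow_succ]; ring
  have h5 : (5/6:ℝ)^(s/2) * ((n:ℝ)+1)^2 ≤ (5/6:ℝ)^(s/2) * (2^16 * ((s/2 : ℕ) + 1 : ℝ)^16) :=
    mul_le_mul_of_nonneg_left h2 (by positivity)
  refine h5.trans ?_
  rw [e]
  push_cast at h1 ⊢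
  calc 6/5 * (5/6:ℝ)^(s/2+1) * (2^16 * (((s/2 : ℕ):ℝ) + 1)^16)
      = 2^16 * (6/5 * ((((s/2 : ℕ):ℝ) + 1)^16 * (5/6:ℝ)^(s/2+1))) := by ring
    _ ≤ 2^16 * (6/5 * C0) := by gcongr

theorem sum_fin (ξ : ℕ → Bool) (hh : ℕ → ℕ) (W : ℕ → ℝ≥0∞)
    (h1 : ∀ r, Rf ξ r → W r ≤ ENNReal.ofReal (4 * (2^((Rs ξ r).card/8) * (5/6)^(Rs ξ r).card) +
      27 * (gw (Rs ξ r).card)^2 * gw (Bg ξ hh r).card +
      9 * (gw (Rs ξ r).card)^2 * (2^((Bg ξ hh r).card/8) * (5/6)^(Bg ξ hh r).card)))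
    (h2 : ∀ r, Rf ξ r → W r ≤ ENNReal.ofReal ((5/6)^((Sc ξ hh r).card/2))) :
    ∑' r, (if Rf ξ r then W r else 0) ≠ ∞ := by
  obtain ⟨C, hC0, hC⟩ := pw
  have key : ∀ r, (if Rf ξ r then W r else 0) ≤
      (if Rf ξ r then ENNReal.ofReal (4 * (10/11)^(Rs ξ r).card) else 0) +
      (if Rf ξ r then ENNReal.ofReal (117 * ((1 / (((Bg ξ hh r).card:ℝ)+1)^(5/4:ℝ)) *
        (1/((jj ξ hh r:ℝ)+1)^2))) else 0) +
      (if Rf ξ r then ENNReal.ofReal (C * (1/(((Rs ξ r).card:ℝ)+1)^2)) else 0) := by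
    intro r
    by_cases hr : Rf ξ r
    swap
    · simp [hr]
    rw [if_pos hr, if_pos hr, if_pos hr, if_pos hr]
    by_cases hs : ((Sc ξ hh r).card+1)^8 ≤ (Rs ξ r).card + 1
    · have h3 := wt (Rs ξ r).card (Bg ξ hh r).card (jj ξ hh r) (Sc ξ hh r).card
        (Finset.card_le_card (Finset.filter_subset _ _)) (jj_le ξ hh r hr) hs
      refine le_trans ?_ le_self_add
      rw [← ENNReal.ofReal_add (by positivity) (by positivity)]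
      refine (h1 r hr).trans (ENNReal.ofReal_le_ofReal ((B1_bound _ _).trans ?_))
      linarith
    · refine le_trans ?_ le_add_self
      exact (h2 r hr).trans (ENNReal.ofReal_le_ofReal (hC _ _ (not_le.1 hs)))
  refine ne_top_of_le_ne_top ?_ (ENNReal.tsum_le_tsum key)
  rw [ENNReal.tsum_add, ENNReal.tsum_add]
  have s2 : Summable fun n : ℕ => 1/((n:ℝ)+1)^2 := by
    have := (summable_nat_add_iff 1).2 (Real.summable_one_div_nat_pow.2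
      (show 1 < 2 by norm_num))
    refine this.congr fun n => ?_
    push_cast; rfl
  refine ENNReal.add_ne_top.2 ⟨ENNReal.add_ne_top.2 ⟨?_, ?_⟩, ?_⟩
  · refine ne_top_of_le_ne_top (fin_of_summable (fun n : ℕ => 4 * (10/11:ℝ)^n)
      (fun n => by positivity) ?_)
      (tsum_inj (Rf ξ) _ (n_inj ξ) fun n => ENNReal.ofReal (4 * (10/11)^n))
    exact (summable_geometric_of_lt_one (by norm_num) (by norm_num)).mul_left 4
  · refine ne_top_of_le_ne_top (fin_of_summable (fun x : ℕ × ℕ =>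
      117 * ((1 / ((x.1:ℝ)+1)^(5/4:ℝ)) * (1/((x.2:ℝ)+1)^2))) (fun x => by positivity) ?_)
      (tsum_inj (Rf ξ) _ (mj_inj ξ hh) fun x => ENNReal.ofReal
        (117 * ((1 / ((x.1:ℝ)+1)^(5/4:ℝ)) * (1/((x.2:ℝ)+1)^2))))
    apply Summable.mul_left
    have s1 : Summable fun n : ℕ => 1/((n:ℝ)+1)^(5/4:ℝ) := by
      have := (summable_nat_add_iff 1).2 (Real.summable_one_div_nat_rpow.2
        (show (1:ℝ) < 5/4 by norm_num))
      refine this.congr fun n => ?_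
      push_cast; rfl
    exact s1.mul_of_nonneg s2 (fun n => by positivity) (fun n => by positivity)
  · refine ne_top_of_le_ne_top (fin_of_summable (fun n : ℕ => C * (1/((n:ℝ)+1)^2))
      (fun n => by positivity) ?_)
      (tsum_inj (Rf ξ) _ (n_inj ξ) fun n => ENNReal.ofReal (C * (1/((n:ℝ)+1)^2)))
    exact s2.mul_left C

end Pool.Agent.V11320.CW
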