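import Pool.Agent.V11320.CW.ThreeB
import Pool.Agent.V11320.CW.ThreeC

set_option autoImplicit false

open MeasureTheory ProbabilityTheory Filter Topology
open scoped ENNReal

namespace Pool.Agent.V11320.CW

lemma exists_sep (S : Finset ℕ) (hh : ℕ → ℕ) : ∃ R ⊆ S, Set.InjOn hh R ∧
    (∀ i ∈ R, ∀ j ∈ R, hh i < hh j → hh i + 2 ≤ hh j) ∧ (S.image hh).card / 2 ≤ R.card := by
  classical
  set T := S.image hh with hT
  have hsplit : (T.filter fun t => t % 2 = 0).card + (T.filter fun t => ¬ t % 2 = 0).card =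
      T.card := Finset.card_filter_add_card_filter_not _
  obtain ⟨P, hPT, hpar, hcard⟩ : ∃ P ⊆ T, (∀ t ∈ P, ∀ t' ∈ P, t % 2 = t' % 2) ∧
      T.card / 2 ≤ P.card := by
    by_cases h : T.card / 2 ≤ (T.filter fun t => t % 2 = 0).card
    · refine ⟨_, Finset.filter_subset _ _, ?_, h⟩
      intro t ht t' ht'
      rw [(Finset.mem_filter.1 ht).2, (Finset.mem_filter.1 ht').2]
    · refine ⟨T.filter fun t => ¬ t % 2 = 0, Finset.filter_subset _ _, ?_, by omega⟩
      intro t ht t' ht'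
      have h1 := (Finset.mem_filter.1 ht).2
      have h2 := (Finset.mem_filter.1 ht').2
      omega
  set g := Function.invFunOn hh (S : Set ℕ) with hg
  have himg : ∀ t ∈ P, t ∈ hh '' (S : Set ℕ) := by
    intro t ht
    have := hPT ht
    rw [hT, Finset.mem_image] at this
    obtain ⟨i, hi, rfl⟩ := this
    exact ⟨i, hi, rfl⟩
  have hgm : ∀ t ∈ P, g t ∈ S := fun t ht => Function.invFunOn_mem (himg t ht)
  have hge : ∀ t ∈ P, hh (g t) = t := fun t ht => Function.invFunOn_eq (himg t ht)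
  refine ⟨P.image g, ?_, ?_, ?_, ?_⟩
  · intro i hi
    obtain ⟨t, ht, rfl⟩ := Finset.mem_image.1 hi
    exact hgm t ht
  · intro i hi j hj hij
    obtain ⟨t, ht, rfl⟩ := Finset.mem_image.1 (Finset.mem_coe.1 hi)
    obtain ⟨t', ht', rfl⟩ := Finset.mem_image.1 (Finset.mem_coe.1 hj)
    rw [hge t ht, hge t' ht'] at hij
    rw [hij]
  · intro i hi j hj hij
    obtain ⟨t, ht, rfl⟩ := Finset.mem_image.1 hi
    obtain ⟨t', ht', rfl⟩ := Finset.mem_image.1 hj
    rw [hge t ht, hge t' ht'] at hij ⊢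
    have := hpar t ht t' ht'
    omega
  · have hc : (P.image g).card = P.card := Finset.card_image_of_injOn (by
      intro t ht t' ht' h
      rw [← hge t ht, ← hge t' ht', h])
    rw [hc]
    exact hcard

/-- full segment length -/
noncomputable def LL (ξ : ℕ → Bool) (i : ℕ) : ℕ := Set.ncard {k | last ξ k = i}

/-- scale -/
noncomputable def hs (ξ : ℕ → Bool) (i : ℕ) : ℕ := Nat.log 2 (LL ξ i)

lemma len_eq (ξ : ℕ → Bool) (r i : ℕ) (hr : Rf ξ r) (hi : i < r) : len ξ r i = LL ξ i := by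
  unfold len LL
  rw [← Set.ncard_coe_finset]
  congr 1
  ext k
  simp only [Finset.coe_filter, Finset.mem_range, Set.mem_ofPred_eq]
  constructor
  · exact fun h => h.2
  · intro h
    refine ⟨?_, h⟩
    by_contra hk
    have := last_mono ξ (not_lt.1 hk)
    rw [last_self ξ r hr] at this
    omega

lemma fin_last (ξ : ℕ → Bool) (hinf : {r | Rf ξ r}.Infinite) (i : ℕ) :
    {k | last ξ k = i}.Finite := by
  obtain ⟨r, hr, hir⟩ := hinf.exists_gt i
  apply (Set.finite_lt_nat r).subset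
  intro k hk
  by_contra hc
  have := last_mono ξ (not_lt.1 hc)
  rw [last_self ξ r hr] at this
  have hk : last ξ k = i := hk
  omega

lemma seg_le (ξ : ℕ → Bool) (hinf : {r | Rf ξ r}.Infinite) (n : ℕ) :
    n + 1 - last ξ n ≤ LL ξ (last ξ n) := by
  have h : ((Finset.Icc (last ξ n) n : Finset ℕ) : Set ℕ) ⊆ {k | last ξ k = last ξ n} := by
    intro k hk
    rw [Finset.mem_coe, Finset.mem_Icc] at hk
    exact last_const ξ n k hk.1 hk.2
  have h1 := Set.ncard_le_ncard h (fin_last ξ hinf _)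
  rw [Set.ncard_coe_finset, Nat.card_Icc] at h1
  exact h1

lemma visits_inj {d : ℕ} (w : Om d) (z : Fin d → ℤ) :
    Set.InjOn (last w.1) {n | ∀ j, pos w (n+1) j = z j} := by
  intro n hn m hm hnm
  have h1 : pos w (n+1) (w.2.1 (last w.1 n)) = z _ := hn (w.2.1 (last w.1 n))
  have h2 : pos w (m+1) (w.2.1 (last w.1 n)) = z _ := hm (w.2.1 (last w.1 n))
  have hnm : last w.1 n = last w.1 m := hnm
  rw [pos_seg] at h1 h2
  rw [← hnm] at h2
  rw [← h2] at h1
  have h3 := add_left_cancel h1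
  rw [if_pos rfl] at h3
  have hs : sg (w.2.2 (last w.1 n)) ≠ 0 := by unfold sg; split_ifs <;> norm_num
  have h4 := mul_right_cancel₀ hs h3
  have h5 : n + 1 - last w.1 n = m + 1 - last w.1 n := by exact_mod_cast h4
  have h6 := last_le w.1 n
  have h7 := last_le w.1 m
  rw [← hnm] at h7
  omega

lemma tendsto_of_fin {d : ℕ} (w : Om d) (hfin : ∀ z : Fin d → ℤ, {n | ∀ j, pos w n j = z j}.Finite) :
    Tendsto (fun n => Real.sqrt (∑ j, (pos w n j : ℝ)^2)) atTop atTop := by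
  rw [tendsto_atTop]
  intro K
  obtain ⟨K', hK'⟩ := exists_nat_gt K
  have hbox : (Set.Icc (fun _ : Fin d => (-(K':ℤ))) (fun _ => (K':ℤ))).Finite := Set.finite_Icc _ _
  have hbad : {n | ¬ K ≤ Real.sqrt (∑ j, (pos w n j : ℝ)^2)}.Finite := by
    refine Set.Finite.subset (hbox.biUnion fun z _ => hfin z) ?_
    intro n hn
    simp only [Set.mem_ofPred_eq, not_le] at hn
    rw [Set.mem_iUnion₂]
    refine ⟨fun j => pos w n j, ?_, fun _ => rfl⟩
    have hj : ∀ j, |(pos w n j : ℝ)| < K' := by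
      intro j
      have h1 : |(pos w n j : ℝ)| ≤ Real.sqrt (∑ j, (pos w n j : ℝ)^2) := by
        rw [← Real.sqrt_sq_eq_abs]
        exact Real.sqrt_le_sqrt (Finset.single_le_sum (f := fun j => (pos w n j : ℝ)^2)
          (fun i _ => sq_nonneg _) (Finset.mem_univ j))
      linarith
    have hj' : ∀ j, |pos w n j| < K' := by
      intro j
      have := hj j
      exact_mod_cast this
    constructor
    · intro j
      exact (abs_lt.1 (hj' j)).1.le
    · intro j
      exact (abs_lt.1 (hj' j)).2.le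
  have := hbad.compl_mem_cofinite
  rw [Nat.cofinite_eq_atTop] at this
  filter_upwards [this] with n hn
  by_contra hc
  exact hn hc

lemma idx_Rs {d : ℕ} (ξ : ℕ → Bool) (J : ℕ → Fin d) (r : ℕ) (j : Fin d) :
    idx ξ J r j = (Rs ξ r).filter fun i => J i = j := by
  unfold idx Rs
  rw [Finset.filter_filter]

/-- basic event -/
def DD (ξ : ℕ → Bool) (r : ℕ) (a b c : Fin 3) (za zb lo : ℤ) :
    Set ((ℕ → Fin 3) × (ℕ → Bool)) :=
  {x | pos (ξ, x) r a = za ∧ pos (ξ, x) r b = zb ∧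
    (lo ≤ pos (ξ, x) r c ∧ pos (ξ, x) r c < lo + (LL ξ r : ℤ))}

lemma meas_DD (ξ : ℕ → Bool) (r : ℕ) (a b c : Fin 3) (za zb lo : ℤ) :
    MeasurableSet (DD ξ r a b c za zb lo) := by
  have hm : ∀ j, Measurable fun x : (ℕ → Fin 3) × (ℕ → Bool) => pos (ξ, x) r j := fun j =>
    (measurable_pos r j).comp (by fun_prop)
  exact (measurableSet_eq_fun (hm a) measurable_const).inter
      ((measurableSet_eq_fun (hm b) measurable_const).inter
        ((measurableSet_le measurable_const (hm c)).inter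
          (measurableSet_lt (hm c) measurable_const)))

lemma DD_sec (ξ : ℕ → Bool) (r : ℕ) (a b c : Fin 3) (hab : a ≠ b) (hac : a ≠ c) (hbc : b ≠ c)
    (za zb lo : ℤ) (J : ℕ → Fin 3) :
    sgnLaw (Prod.mk J ⁻¹' DD ξ r a b c za zb lo) ≤ ENNReal.ofReal
      ((((FF (idx ξ J r a) (len ξ r) za).card : ℝ) * (1/2)^(idx ξ J r a).card) *
        (((FF (idx ξ J r b) (len ξ r) zb).card : ℝ) * (1/2)^(idx ξ J r b).card) *
        (((FI (idx ξ J r c) (len ξ r) lo (LL ξ r)).card : ℝ) * (1/2)^(idx ξ J r c).card)) := by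
  refine le_trans (measure_mono ?_) (threeF _ _ _ (idx_disj ξ J r a b hab)
    (idx_disj ξ J r a c hac) (idx_disj ξ J r b c hbc) _ _ _)
  intro ε hε
  have h : pos (ξ, (J, ε)) r a = za ∧ pos (ξ, (J, ε)) r b = zb ∧
    (lo ≤ pos (ξ, (J, ε)) r c ∧ pos (ξ, (J, ε)) r c < lo + (LL ξ r : ℤ)) := hε
  rw [pos_idx, pos_idx, pos_idx] at h
  have e : ∀ j, ∑ i ∈ idx ξ J r j, sg (ε i) * (len ξ r i : ℤ) =
      ss (idx ξ J r j) (len ξ r) ((idx ξ J r j).filter fun i => ε i = true) := fun j =>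
    (ss_filter _ _ _).symm
  simp only at h
  rw [e, e, e] at h
  refine ⟨?_, ?_, ?_⟩
  · exact Finset.mem_filter.2 ⟨Finset.mem_powerset.2 (Finset.filter_subset _ _), h.1⟩
  · exact Finset.mem_filter.2 ⟨Finset.mem_powerset.2 (Finset.filter_subset _ _), h.2.1⟩
  · exact Finset.mem_filter.2 ⟨Finset.mem_powerset.2 (Finset.filter_subset _ _), h.2.2⟩

lemma DD_b1 (ξ : ℕ → Bool) (r : ℕ) (hr : Rf ξ r) (a b c : Fin 3) (hab : a ≠ b) (hac : a ≠ c)
    (hbc : b ≠ c) (za zb lo : ℤ) :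
    ((axLaw 3).prod sgnLaw) (DD ξ r a b c za zb lo) ≤
      ENNReal.ofReal (4 * (2^((Rs ξ r).card/8) * (5/6)^(Rs ξ r).card) +
      27 * (gw (Rs ξ r).card)^2 * gw (Bg ξ (hs ξ) r).card +
      9 * (gw (Rs ξ r).card)^2 * (2^((Bg ξ (hs ξ) r).card/8) * (5/6)^(Bg ξ (hs ξ) r).card)) := by
  rw [Measure.prod_apply (meas_DD ξ r a b c za zb lo)]
  refine le_trans (lintegral_mono fun J => ?_) (E_prod (Rs ξ r) (Bg ξ (hs ξ) r) a b c)
  refine (DD_sec ξ r a b c hab hac hbc za zb lo J).trans (ENNReal.ofReal_le_ofReal ?_)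
  have hl := fun j => len_pos ξ J r j
  have b1 := FF_gw (idx ξ J r a) (len ξ r) (hl a) za
  have b2 := FF_gw (idx ξ J r b) (len ξ r) (hl b) zb
  have hG : (Bg ξ (hs ξ) r).filter (fun i => J i = c) ⊆ idx ξ J r c := by
    intro i hi
    rw [idx_Rs]
    rw [Finset.mem_filter] at hi ⊢
    exact ⟨(Finset.mem_filter.1 hi.1).1, hi.2⟩
  have b3 := FI_gw (idx ξ J r c) ((Bg ξ (hs ξ) r).filter (fun i => J i = c)) hG (len ξ r) lo
    (LL ξ r) (by
      intro i hi
      have hi1 := hG hi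
      have hi2 := (Finset.mem_filter.1 (Finset.mem_filter.1 hi).1).2
      have hi3 := hl c i hi1
      have hir : i < r := by
        have := (Finset.mem_filter.1 hi1).1
        exact Finset.mem_range.1 this
      rw [len_eq ξ r i hr hir] at hi3 ⊢
      have h1 : LL ξ r < 2^(hs ξ r + 1) := Nat.lt_pow_succ_log_self (by norm_num) _
      have h2 : 2^(hs ξ i) ≤ LL ξ i := Nat.pow_log_le_self 2 (by omega)
      have h3 : 2^(hs ξ r) ≤ 2^(hs ξ i) := Nat.pow_le_pow_right (by norm_num) hi2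
      rw [pow_succ] at h1
      omega)
  rw [idx_Rs] at b1 b2
  have p1 := gw_pos ((Rs ξ r).filter fun i => J i = a).card
  have p2 := gw_pos ((Rs ξ r).filter fun i => J i = b).card
  rw [idx_Rs ξ J r a, idx_Rs ξ J r b]
  exact mul_le_mul (mul_le_mul b1 b2 (by positivity) p1.le) b3 (by positivity) (by positivity)

lemma DD_b2 (ξ : ℕ → Bool) (r : ℕ) (hr : Rf ξ r) (a b c : Fin 3) (hab : a ≠ b) (hac : a ≠ c)
    (hbc : b ≠ c) (za zb lo : ℤ) :
    ((axLaw 3).prod sgnLaw) (DD ξ r a b c za zb lo) ≤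
      ENNReal.ofReal ((5/6)^((Sc ξ (hs ξ) r).card/2)) := by
  obtain ⟨R, hRS, hinj, hsep, hcard⟩ := exists_sep (Rs ξ r) (hs ξ)
  have hfin : ENNReal.ofReal ((5/6)^R.card) ≤ ENNReal.ofReal ((5/6)^((Sc ξ (hs ξ) r).card/2)) := by
    apply ENNReal.ofReal_le_ofReal
    exact pow_le_pow_of_le_one (by norm_num) (by norm_num) hcard
  refine le_trans ?_ hfin
  rw [Measure.prod_apply (meas_DD ξ r a b c za zb lo), ← E_UU R a]
  refine lintegral_mono fun J => ?_
  refine (DD_sec ξ r a b c hab hac hbc za zb lo J).trans (ENNReal.ofReal_le_ofReal ?_)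
  have hl := fun j => len_pos ξ J r j
  have b2 := (FF_gw (idx ξ J r b) (len ξ r) (hl b) zb).trans (gw_le_one _)
  have b3 := (FI_gw (idx ξ J r c) ∅ (by simp) (len ξ r) lo (LL ξ r) (by simp)).trans (gw_le_one _)
  have hG : R.filter (fun i => J i = a) ⊆ idx ξ J r a := by
    intro i hi
    rw [idx_Rs]
    rw [Finset.mem_filter] at hi ⊢
    exact ⟨hRS hi.1, hi.2⟩
  have hle : ∀ i ∈ R.filter (fun i => J i = a), Nat.log 2 (len ξ r i) = hs ξ i := by
    intro i hi
    have hir : i < r := Finset.mem_range.1 (Finset.mem_filter.1 (hG hi)).1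
    unfold hs
    rw [len_eq ξ r i hr hir]
  have b1 := FF_sepg (idx ξ J r a) (R.filter (fun i => J i = a)) hG (len ξ r)
    (fun i hi => (hl a i (hG hi)).ne') za
    (by
      intro i hi j hj hij
      simp only at hij
      rw [hle i (Finset.mem_coe.1 hi), hle j (Finset.mem_coe.1 hj)] at hij
      exact hinj (Finset.mem_coe.2 (Finset.mem_filter.1 (Finset.mem_coe.1 hi)).1)
        (Finset.mem_coe.2 (Finset.mem_filter.1 (Finset.mem_coe.1 hj)).1) hij)
    (by
      intro i hi j hj hij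
      rw [hle i hi, hle j hj] at hij ⊢
      exact hsep i (Finset.mem_filter.1 hi).1 j (Finset.mem_filter.1 hj).1 hij)
  calc _ ≤ ((1/2:ℝ)^(R.filter (fun i => J i = a)).card * 1) * 1 :=
        mul_le_mul (mul_le_mul b1 b2 (by positivity) (by positivity)) b3 (by positivity)
          (by positivity)
    _ = _ := by rw [mul_one, mul_one]

/-- a visit to `z` in segment `r` -/
def CC (ξ : ℕ → Bool) (z : Fin 3 → ℤ) (r : ℕ) : Set ((ℕ → Fin 3) × (ℕ → Bool)) :=
  {x | Rf ξ r ∧ ∃ n, last ξ n = r ∧ ∀ j, pos (ξ, x) (n+1) j = z j}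

lemma CC_sub (ξ : ℕ → Bool) (hinf : {r | Rf ξ r}.Infinite) (z : Fin 3 → ℤ) (r : ℕ) :
    CC ξ z r ⊆ ⋃ c : Fin 3, (DD ξ r (c+1) (c+2) c (z (c+1)) (z (c+2)) (z c - LL ξ r) ∪
      DD ξ r (c+1) (c+2) c (z (c+1)) (z (c+2)) (z c + 1)) := by
  rintro x ⟨hr, n, hn, hx⟩
  rw [Set.mem_iUnion]
  refine ⟨x.1 r, ?_⟩
  set c := x.1 r with hc
  have h1 : ∀ c : Fin 3, c ≠ c + 1 := by decide
  have h2 : ∀ c : Fin 3, c ≠ c + 2 := by decide
  have hle := last_le ξ n
  have hL := seg_le ξ hinf n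
  rw [hn] at hle hL
  have e : ∀ j, pos (ξ, x) r j + ((n + 1 - r : ℕ) : ℤ) * (if c = j then sg (x.2 r) else 0) =
      z j := by
    intro j
    rw [← hx j, pos_seg]
    simp only [hn]
    rw [hc]
  have e1 := e (c+1)
  have e2 := e (c+2)
  have e3 := e c
  rw [if_neg (h1 c), mul_zero, add_zero] at e1
  rw [if_neg (h2 c), mul_zero, add_zero] at e2
  rw [if_pos rfl] at e3
  have ht : (1:ℤ) ≤ ((n + 1 - r : ℕ) : ℤ) := by exact_mod_cast (by omega : 1 ≤ n + 1 - r)
  have hL' : ((n + 1 - r : ℕ) : ℤ) ≤ (LL ξ r : ℤ) := by exact_mod_cast hL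
  cases hs : x.2 r
  · right
    rw [hs] at e3
    refine ⟨e1, e2, ?_, ?_⟩
    · simp only [sg] at e3
      norm_num at e3
      omega
    · simp only [sg] at e3
      norm_num at e3
      omega
  · left
    rw [hs] at e3
    refine ⟨e1, e2, ?_, ?_⟩
    · simp only [sg] at e3
      norm_num at e3
      omega
    · simp only [sg] at e3
      norm_num at e3
      omega

lemma CC_sum (ξ : ℕ → Bool) (hinf : {r | Rf ξ r}.Infinite) (z : Fin 3 → ℤ) :
    ∑' r, ((axLaw 3).prod sgnLaw) (CC ξ z r) ≠ ∞ := by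
  have h1 : ∀ c : Fin 3, c + 1 ≠ c + 2 := by decide
  have h2 : ∀ c : Fin 3, c + 1 ≠ c := by decide
  have h3 : ∀ c : Fin 3, c + 2 ≠ c := by decide
  have hle : ∀ r, ((axLaw 3).prod sgnLaw) (CC ξ z r) ≤ ∑ c : Fin 3,
      ((if Rf ξ r then ((axLaw 3).prod sgnLaw)
        (DD ξ r (c+1) (c+2) c (z (c+1)) (z (c+2)) (z c - LL ξ r)) else 0) +
      (if Rf ξ r then ((axLaw 3).prod sgnLaw)
        (DD ξ r (c+1) (c+2) c (z (c+1)) (z (c+2)) (z c + 1)) else 0)) := by
    intro r
    by_cases hr : Rf ξ r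
    · simp only [if_pos hr]
      refine (measure_mono (CC_sub ξ hinf z r)).trans ((measure_iUnion_fintype_le _ _).trans ?_)
      exact Finset.sum_le_sum fun c _ => measure_union_le _ _
    · have : CC ξ z r = ∅ := by
        ext x
        simp only [Set.mem_empty_iff_false, iff_false]
        intro h
        exact hr h.1
      rw [this]; simp
  refine ne_top_of_le_ne_top ?_ (ENNReal.tsum_le_tsum hle)
  rw [Summable.tsum_finsetSum fun _ _ => ENNReal.summable]
  refine (ENNReal.sum_lt_top.2 fun c _ => ?_).ne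
  rw [ENNReal.tsum_add]
  refine ENNReal.add_lt_top.2 ⟨lt_top_iff_ne_top.2 ?_, lt_top_iff_ne_top.2 ?_⟩
  · exact sum_fin ξ (hs ξ) _ (fun r hr => DD_b1 ξ r hr _ _ _ (h1 c) (h2 c) (h3 c) _ _ _)
      (fun r hr => DD_b2 ξ r hr _ _ _ (h1 c) (h2 c) (h3 c) _ _ _)
  · exact sum_fin ξ (hs ξ) _ (fun r hr => DD_b1 ξ r hr _ _ _ (h1 c) (h2 c) (h3 c) _ _ _)
      (fun r hr => DD_b2 ξ r hr _ _ _ (h1 c) (h2 c) (h3 c) _ _ _)

lemma limsup_sub (ξ : ℕ → Bool) (z : Fin 3 → ℤ) :
    limsup (fun n => {x : (ℕ → Fin 3) × (ℕ → Bool) | ∀ j, pos (ξ, x) n j = z j}) atTop ⊆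
      limsup (CC ξ z) atTop := by
  intro x hx
  rw [Filter.mem_limsup_iff_frequently_mem, Nat.frequently_atTop_iff_infinite] at hx ⊢
  have h1 : {n | ∀ j, pos (ξ, x) (n+1) j = z j}.Infinite := by
    intro hfin
    apply hx
    refine Set.Finite.subset (Set.Finite.insert 0 (Set.Finite.image (fun n => n + 1) hfin)) ?_
    intro n hn
    cases n with
    | zero => exact Set.mem_insert _ _
    | succ n => exact Set.mem_insert_of_mem _ ⟨n, hn, rfl⟩
  have h2 := h1.image (visits_inj (ξ, x) z)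
  refine h2.mono ?_
  rintro r ⟨n, hn, rfl⟩
  exact ⟨last_Rf ξ n, n, rfl, hn⟩

lemma null3 (ξ : ℕ → Bool) (z : Fin 3 → ℤ) :
    ((axLaw 3).prod sgnLaw)
      (limsup (fun n => {x : (ℕ → Fin 3) × (ℕ → Bool) | ∀ j, pos (ξ, x) n j = z j}) atTop) = 0 := by
  apply measure_mono_null (limsup_sub ξ z)
  by_cases hinf : {r | Rf ξ r}.Infinite
  · exact measure_limsup_atTop_eq_zero (CC_sum ξ hinf z)
  · have : limsup (CC ξ z) atTop = ∅ := by
      ext x
      simp only [Set.mem_empty_iff_false, iff_false]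
      intro hx
      rw [Filter.mem_limsup_iff_frequently_mem, Nat.frequently_atTop_iff_infinite] at hx
      exact hinf (hx.mono fun r hr => hr.1)
    rw [this]; simp

theorem three_d (p : ℕ → unitInterval) : StrTrans 3 p := by
  unfold StrTrans
  have hz : ∀ z : Fin 3 → ℤ, ∀ᵐ w ∂(crw 3 p), {n | ∀ j, pos w n j = z j}.Finite := by
    intro z
    have hms : ∀ n, MeasurableSet {w : Om 3 | ∀ j, pos w n j = z j} := by
      intro n
      have : {w : Om 3 | ∀ j, pos w n j = z j} = ⋂ j, {w : Om 3 | pos w n j = z j} := by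
        ext w; simp
      rw [this]
      exact MeasurableSet.iInter fun j => measurableSet_eq_fun (measurable_pos n j) measurable_const
    have hnull : crw 3 p (limsup (fun n => {w : Om 3 | ∀ j, pos w n j = z j}) atTop) = 0 := by
      unfold crw
      rw [Measure.measure_prod_null (MeasurableSet.measurableSet_limsup hms)]
      refine Filter.Eventually.of_forall fun ξ => ?_
      have hpre : Prod.mk ξ ⁻¹' (limsup (fun n => {w : Om 3 | ∀ j, pos w n j = z j}) atTop) =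
          limsup (fun n => {x : (ℕ → Fin 3) × (ℕ → Bool) | ∀ j, pos (ξ, x) n j = z j}) atTop := by
        ext x
        rw [Set.mem_preimage, Filter.mem_limsup_iff_frequently_mem,
          Filter.mem_limsup_iff_frequently_mem]
        rfl
      show ((axLaw 3).prod sgnLaw) (Prod.mk ξ ⁻¹' _) = 0
      rw [hpre]
      exact null3 ξ z
    have h2 := measure_eq_zero_iff_ae_notMem.1 hnull
    filter_upwards [h2] with w hw
    rw [Filter.mem_limsup_iff_frequently_mem, Nat.frequently_atTop_iff_infinite] at hw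
    exact Set.not_infinite.1 hw
  filter_upwards [ae_all_iff.2 hz] with w hw
  exact tendsto_of_fin w hw

end Pool.Agent.V11320.CW
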