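import Pool.Agent.V11320.CW.Walk

set_option autoImplicit false

open MeasureTheory ProbabilityTheory Filter Topology
open scoped ENNReal

namespace Pool.Agent.V11320.CW

noncomputable def gE (n : ℕ) : ℝ≥0∞ := ENNReal.ofReal (gw n ^ 3)

lemma gE_sum : ∑' n, gE n ≠ ∞ := by
  unfold gE
  have hs : Summable fun n : ℕ => gw n ^ 3 := by
    have h1 := (summable_nat_add_iff 1).2 (Real.summable_one_div_nat_rpow.2
      (show (1:ℝ) < 3/2 by norm_num))
    refine h1.congr fun n => ?_
    unfold gw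
    rw [Real.sqrt_eq_rpow, div_pow, one_pow, ← Real.rpow_natCast, ← Real.rpow_mul (by positivity)]
    push_cast
    norm_num
  rw [← ENNReal.ofReal_tsum_of_nonneg (fun n => by have := gw_pos n; positivity) hs]
  exact ENNReal.ofReal_ne_top

/-- number of refresh times before `r` with axis `j` -/
def cnt {d : ℕ} (ξ : ℕ → Bool) (J : ℕ → Fin d) (r : ℕ) (j : Fin d) : ℕ :=
  ∑ i ∈ (Finset.range r).filter (Rf ξ), if J i = j then 1 else 0

lemma idx_card {d : ℕ} (ξ : ℕ → Bool) (J : ℕ → Fin d) (r : ℕ) (j : Fin d) :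
    (idx ξ J r j).card = cnt ξ J r j := by
  unfold idx cnt
  rw [← Finset.filter_filter, Finset.card_filter]

lemma tele {d : ℕ} (ξ : ℕ → Bool) (J : ℕ → Fin d) (j : Fin d) (M : ℕ) :
    ∑ r ∈ (Finset.range M).filter (Rf ξ), ((if J r = j then 1 else 0 : ℕ) : ℝ≥0∞) *
      gE (cnt ξ J r j) = ∑ k ∈ Finset.range (cnt ξ J M j), gE k := by
  induction M with
  | zero => simp [cnt]
  | succ M ih =>
    by_cases h : Rf ξ M
    · have hn : M ∉ (Finset.range M).filter (Rf ξ) := by simp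
      have hc : cnt ξ J (M+1) j = (if J M = j then 1 else 0) + cnt ξ J M j := by
        unfold cnt
        rw [Finset.range_add_one, Finset.filter_insert, if_pos h, Finset.sum_insert hn]
      rw [Finset.range_add_one, Finset.filter_insert, if_pos h, Finset.sum_insert hn, ih, hc]
      split_ifs
      · rw [add_comm 1, Finset.sum_range_succ, add_comm]; simp
      · simp
    · have hc : cnt ξ J (M+1) j = cnt ξ J M j := by
        unfold cnt
        rw [Finset.range_add_one, Finset.filter_insert, if_neg h]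
      rw [Finset.range_add_one, Finset.filter_insert, if_neg h, ih, hc]

lemma meas_cnt {d : ℕ} (ξ : ℕ → Bool) (r : ℕ) (j : Fin d) :
    Measurable fun J : ℕ → Fin d => cnt ξ J r j := by
  unfold cnt
  refine Finset.measurable_sum _ fun i _ => ?_
  exact (measurable_of_countable (fun a : Fin d => if a = j then 1 else 0)).comp
    (measurable_pi_apply i)

noncomputable def GG {d : ℕ} [NeZero d] (ξ : ℕ → Bool) (r : ℕ) (j : Fin d) : ℝ≥0∞ :=
  ∫⁻ J, gE (cnt ξ J r j) ∂(axLaw d)

lemma indep_ax {d : ℕ} [NeZero d] (ξ : ℕ → Bool) (r : ℕ) (j : Fin d) :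
    ∫⁻ J, ((if J r = j then 1 else 0 : ℕ) : ℝ≥0∞) * gE (cnt ξ J r j) ∂(axLaw d) =
      (∫⁻ J, ((if J r = j then 1 else 0 : ℕ) : ℝ≥0∞) ∂(axLaw d)) * GG ξ r j := by
  have hI : iIndepFun (fun (i : ℕ) (J : ℕ → Fin d) => (if J i = j then 1 else 0 : ℕ)) (axLaw d) :=
    iIndepFun_infinitePi (X := fun _ a => if a = j then 1 else 0)
      (fun i => measurable_of_countable _)
  have hm : ∀ i, Measurable (fun (J : ℕ → Fin d) => (if J i = j then 1 else 0 : ℕ)) := fun i =>
    (measurable_of_countable (fun a : Fin d => if a = j then 1 else 0)).comp (measurable_pi_apply i)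
  have h2 := hI.indepFun_finsetSum_of_notMem hm (s := (Finset.range r).filter (Rf ξ)) (i := r)
    (by simp)
  have h3 := (h2.comp (φ := gE) (ψ := fun n : ℕ => (n : ℝ≥0∞)) (measurable_of_countable _)
    (measurable_of_countable _)).symm
  have e : (gE ∘ (∑ i ∈ (Finset.range r).filter (Rf ξ),
      fun (J : ℕ → Fin d) => (if J i = j then 1 else 0 : ℕ))) = fun J => gE (cnt ξ J r j) := by
    ext J
    simp [cnt, Finset.sum_apply]
  rw [e] at h3
  have h4 := lintegral_mul_eq_lintegral_mul_lintegral_of_indepFun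
    ((measurable_of_countable (fun n : ℕ => (n : ℝ≥0∞))).comp (hm r))
    ((measurable_of_countable gE).comp (meas_cnt ξ r j)) h3
  exact h4

lemma prob_ax {d : ℕ} [NeZero d] (r : ℕ) (j : Fin d) :
    ∫⁻ J, ((if J r = j then 1 else 0 : ℕ) : ℝ≥0∞) ∂(axLaw d) = (d : ℝ≥0∞)⁻¹ := by
  have h1 : axLaw d (Set.pi (({r} : Finset ℕ) : Set ℕ) fun _ => {j}) =
      ∏ i ∈ ({r} : Finset ℕ), (uniformOn (Set.univ : Set (Fin d))) {j} :=
    Measure.infinitePi_pi (μ := fun _ => uniformOn (Set.univ : Set (Fin d)))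
      (fun i _ => measurableSet_singleton _)
  rw [Finset.prod_singleton] at h1
  have hset : Set.pi (({r} : Finset ℕ) : Set ℕ) (fun _ => ({j} : Set (Fin d))) =
      {J : ℕ → Fin d | J r = j} := by
    ext J; simp
  rw [hset] at h1
  have hms : MeasurableSet {J : ℕ → Fin d | J r = j} :=
    measurableSet_eq_fun (measurable_pi_apply r) measurable_const
  have h2 : (fun J : ℕ → Fin d => ((if J r = j then 1 else 0 : ℕ) : ℝ≥0∞)) =
      {J : ℕ → Fin d | J r = j}.indicator 1 := by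
    ext J
    by_cases h : J r = j
    · rw [Set.indicator_of_mem (by exact h)]; simp [h]
    · rw [Set.indicator_of_notMem (by exact h)]; simp [h]
  rw [h2, lintegral_indicator_one hms, h1]
  rw [uniformOn_univ]
  simp

lemma sum_GG {d : ℕ} [NeZero d] (ξ : ℕ → Bool) (j : Fin d) :
    ∑' r, (if Rf ξ r then GG ξ r j else 0) ≤ d * ∑' n, gE n := by
  rw [ENNReal.tsum_eq_iSup_nat]
  refine iSup_le fun M => ?_
  rw [← Finset.sum_filter]
  have h1 : ∑ r ∈ (Finset.range M).filter (Rf ξ), (d : ℝ≥0∞)⁻¹ * GG ξ r j ≤ ∑' n, gE n := by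
    calc ∑ r ∈ (Finset.range M).filter (Rf ξ), (d : ℝ≥0∞)⁻¹ * GG ξ r j
        = ∑ r ∈ (Finset.range M).filter (Rf ξ), ∫⁻ J, ((if J r = j then 1 else 0 : ℕ) : ℝ≥0∞) *
            gE (cnt ξ J r j) ∂(axLaw d) := by
          refine Finset.sum_congr rfl fun r _ => ?_
          rw [indep_ax, prob_ax]
      _ = ∫⁻ J, ∑ r ∈ (Finset.range M).filter (Rf ξ), ((if J r = j then 1 else 0 : ℕ) : ℝ≥0∞) *
            gE (cnt ξ J r j) ∂(axLaw d) := by
          rw [lintegral_finsetSum]
          intro r _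
          exact ((measurable_of_countable (fun n : ℕ => (n : ℝ≥0∞))).comp
            ((measurable_of_countable (fun a : Fin d => if a = j then 1 else 0)).comp
              (measurable_pi_apply r))).mul
            ((measurable_of_countable gE).comp (meas_cnt ξ r j))
      _ ≤ ∫⁻ J, ∑' n, gE n ∂(axLaw d) := by
          refine lintegral_mono fun J => ?_
          rw [tele]
          exact ENNReal.sum_le_tsum _
      _ = ∑' n, gE n := by simp
  rw [← Finset.mul_sum] at h1
  have hd : (d : ℝ≥0∞) ≠ 0 := by exact_mod_cast NeZero.ne d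
  calc ∑ r ∈ (Finset.range M).filter (Rf ξ), GG ξ r j
      = d * ((d : ℝ≥0∞)⁻¹ * ∑ r ∈ (Finset.range M).filter (Rf ξ), GG ξ r j) := by
        rw [← mul_assoc, ENNReal.mul_inv_cancel hd (ENNReal.natCast_ne_top d), one_mul]
    _ ≤ d * ∑' n, gE n := by gcongr

lemma amgm (x y z : ℝ) (hx : 0 ≤ x) (hy : 0 ≤ y) (hz : 0 ≤ z) :
    x * y * z ≤ x^3 + y^3 + z^3 := by
  nlinarith [mul_nonneg (add_nonneg (add_nonneg hx hy) hz) (add_nonneg (add_nonneg
    (sq_nonneg (x-y)) (sq_nonneg (y-z))) (sq_nonneg (x-z))), pow_nonneg hx 3, pow_nonneg hy 3,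
    pow_nonneg hz 3]

lemma trip {d : ℕ} [NeZero d] (ξ : ℕ → Bool) (r : ℕ) (a b c : Fin d) (hab : a ≠ b) (hac : a ≠ c)
    (hbc : b ≠ c) (z : Fin d → ℤ) :
    ((axLaw d).prod sgnLaw) {x | pos (ξ, x) r a = z a ∧ pos (ξ, x) r b = z b ∧
      pos (ξ, x) r c = z c} ≤ GG ξ r a + GG ξ r b + GG ξ r c := by
  have hm : ∀ j, Measurable fun x : (ℕ → Fin d) × (ℕ → Bool) => pos (ξ, x) r j := fun j =>
    (measurable_pos r j).comp (by fun_prop)
  have hms : MeasurableSet {x : (ℕ → Fin d) × (ℕ → Bool) | pos (ξ, x) r a = z a ∧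
      pos (ξ, x) r b = z b ∧ pos (ξ, x) r c = z c} :=
    (measurableSet_eq_fun (hm a) measurable_const).inter
      ((measurableSet_eq_fun (hm b) measurable_const).inter
        (measurableSet_eq_fun (hm c) measurable_const))
  rw [Measure.prod_apply hms]
  have hg : ∀ j : Fin d, Measurable fun J : ℕ → Fin d => gE (cnt ξ J r j) := fun j =>
    (measurable_of_countable gE).comp (meas_cnt ξ r j)
  unfold GG
  rw [← lintegral_add_left (hg a), ← lintegral_add_left
    (f := fun J => gE (cnt ξ J r a) + gE (cnt ξ J r b)) ((hg a).add (hg b))]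
  refine lintegral_mono fun J => ?_
  have h1 := three (idx ξ J r a) (idx ξ J r b) (idx ξ J r c) (idx_disj ξ J r a b hab)
    (idx_disj ξ J r a c hac) (idx_disj ξ J r b c hbc) (len ξ r) (by
      intro i hi
      rw [Finset.mem_union, Finset.mem_union] at hi
      rcases hi with (hi | hi) | hi
      · exact len_pos ξ J r _ i hi
      · exact len_pos ξ J r _ i hi
      · exact len_pos ξ J r _ i hi) (z a) (z b) (z c)
  have hset : Prod.mk J ⁻¹' {x : (ℕ → Fin d) × (ℕ → Bool) | pos (ξ, x) r a = z a ∧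
      pos (ξ, x) r b = z b ∧ pos (ξ, x) r c = z c} =
      {ε | ∑ i ∈ idx ξ J r a, sg (ε i) * (len ξ r i : ℤ) = z a ∧
        ∑ i ∈ idx ξ J r b, sg (ε i) * (len ξ r i : ℤ) = z b ∧
        ∑ i ∈ idx ξ J r c, sg (ε i) * (len ξ r i : ℤ) = z c} := by
    ext ε
    show (pos (ξ, (J, ε)) r a = z a ∧ pos (ξ, (J, ε)) r b = z b ∧ pos (ξ, (J, ε)) r c = z c) ↔ _
    rw [pos_idx, pos_idx, pos_idx]
    rfl
  rw [hset]
  refine h1.trans ?_
  rw [idx_card, idx_card, idx_card]
  have p1 := gw_pos (cnt ξ J r a)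
  have p2 := gw_pos (cnt ξ J r b)
  have p3 := gw_pos (cnt ξ J r c)
  refine (ENNReal.ofReal_le_ofReal (amgm _ _ _ p1.le p2.le p3.le)).trans ?_
  rw [ENNReal.ofReal_add (by positivity) (by positivity), ENNReal.ofReal_add (by positivity)
    (by positivity)]
  exact le_rfl

lemma Bs_bound {d : ℕ} [NeZero d] (hd : 4 ≤ d) (ξ : ℕ → Bool) (r : ℕ) (z : Fin d → ℤ) :
    ((axLaw d).prod sgnLaw) (Prod.mk ξ ⁻¹' (Bs z r)) ≤
      3 * ∑ c : Fin 4, (if Rf ξ r then GG ξ r (Fin.castLE hd c) else 0) := by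
  by_cases hR : Rf ξ r
  swap
  · have : Prod.mk ξ ⁻¹' (Bs z r) = ∅ := by
      ext x
      simp only [Set.mem_preimage, Set.mem_empty_iff_false, iff_false]
      intro h
      exact hR h.1
    rw [this]; simp
  simp only [if_pos hR]
  set e := Fin.castLE hd with he
  have hinj : Function.Injective e := Fin.castLE_injective hd
  set D : Fin d → Fin d → Fin d → Set ((ℕ → Fin d) × (ℕ → Bool)) := fun a b c =>
    {x | pos (ξ, x) r a = z a ∧ pos (ξ, x) r b = z b ∧ pos (ξ, x) r c = z c} with hD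
  have hsub : Prod.mk ξ ⁻¹' (Bs z r) ⊆ ((D (e 1) (e 2) (e 3) ∪ D (e 0) (e 2) (e 3)) ∪
      D (e 0) (e 1) (e 3)) ∪ D (e 0) (e 1) (e 2) := by
    intro x hx
    have h : ∀ j, j ≠ x.1 r → pos (ξ, x) r j = z j := hx.2
    by_cases h0 : e 0 = x.1 r
    · have h1 : e 1 ≠ x.1 r := fun h => absurd (hinj (h0.trans h.symm)) (by decide)
      have h2 : e 2 ≠ x.1 r := fun h => absurd (hinj (h0.trans h.symm)) (by decide)
      have h3 : e 3 ≠ x.1 r := fun h => absurd (hinj (h0.trans h.symm)) (by decide)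
      exact Or.inl (Or.inl (Or.inl ⟨h _ h1, h _ h2, h _ h3⟩))
    by_cases h1 : e 1 = x.1 r
    · have h2 : e 2 ≠ x.1 r := fun h => absurd (hinj (h1.trans h.symm)) (by decide)
      have h3 : e 3 ≠ x.1 r := fun h => absurd (hinj (h1.trans h.symm)) (by decide)
      exact Or.inl (Or.inl (Or.inr ⟨h _ h0, h _ h2, h _ h3⟩))
    by_cases h2 : e 2 = x.1 r
    · have h3 : e 3 ≠ x.1 r := fun h => absurd (hinj (h2.trans h.symm)) (by decide)
      exact Or.inl (Or.inr ⟨h _ h0, h _ h1, h _ h3⟩)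
    · exact Or.inr ⟨h _ h0, h _ h1, h _ h2⟩
  have ne : ∀ i j : Fin 4, i ≠ j → e i ≠ e j := fun i j h h2 => h (hinj h2)
  calc ((axLaw d).prod sgnLaw) (Prod.mk ξ ⁻¹' (Bs z r))
      ≤ ((axLaw d).prod sgnLaw) (D (e 1) (e 2) (e 3)) + ((axLaw d).prod sgnLaw) (D (e 0) (e 2) (e 3))
        + ((axLaw d).prod sgnLaw) (D (e 0) (e 1) (e 3)) +
        ((axLaw d).prod sgnLaw) (D (e 0) (e 1) (e 2)) := by
        refine (measure_mono hsub).trans ((measure_union_le _ _).trans ?_)
        refine add_le_add ((measure_union_le _ _).trans ?_) le_rfl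
        exact add_le_add (measure_union_le _ _) le_rfl
    _ ≤ (GG ξ r (e 1) + GG ξ r (e 2) + GG ξ r (e 3)) + (GG ξ r (e 0) + GG ξ r (e 2) + GG ξ r (e 3)) +
        (GG ξ r (e 0) + GG ξ r (e 1) + GG ξ r (e 3)) +
        (GG ξ r (e 0) + GG ξ r (e 1) + GG ξ r (e 2)) := by
        refine add_le_add (add_le_add (add_le_add ?_ ?_) ?_) ?_
        · exact trip ξ r _ _ _ (ne _ _ (by decide)) (ne _ _ (by decide)) (ne _ _ (by decide)) z
        · exact trip ξ r _ _ _ (ne _ _ (by decide)) (ne _ _ (by decide)) (ne _ _ (by decide)) z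
        · exact trip ξ r _ _ _ (ne _ _ (by decide)) (ne _ _ (by decide)) (ne _ _ (by decide)) z
        · exact trip ξ r _ _ _ (ne _ _ (by decide)) (ne _ _ (by decide)) (ne _ _ (by decide)) z
    _ = 3 * ∑ c : Fin 4, GG ξ r (e c) := by
        rw [Fin.sum_univ_four]; ring

theorem four {d : ℕ} [NeZero d] (hd : 4 ≤ d) (p : ℕ → unitInterval) : StrTrans d p := by
  unfold StrTrans
  have hz : ∀ z : Fin d → ℤ, ∀ᵐ w ∂(crw d p), ∀ᶠ r in atTop, w ∉ Bs z r := by
    intro z
    have hnull : crw d p (limsup (Bs z) atTop) = 0 := by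
      unfold crw
      rw [Measure.measure_prod_null (MeasurableSet.measurableSet_limsup
        (measurableSet_Bs z))]
      refine Filter.Eventually.of_forall fun ξ => ?_
      have hpre : Prod.mk ξ ⁻¹' (limsup (Bs z) atTop) =
          limsup (fun r => Prod.mk ξ ⁻¹' (Bs z r)) atTop := by
        ext x
        rw [Set.mem_preimage, Filter.mem_limsup_iff_frequently_mem,
          Filter.mem_limsup_iff_frequently_mem]
        rfl
      show ((axLaw d).prod sgnLaw) (Prod.mk ξ ⁻¹' limsup (Bs z) atTop) = 0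
      rw [hpre]
      apply measure_limsup_atTop_eq_zero
      apply ne_of_lt
      calc ∑' r, ((axLaw d).prod sgnLaw) (Prod.mk ξ ⁻¹' (Bs z r))
          ≤ ∑' r, 3 * ∑ c : Fin 4, (if Rf ξ r then GG ξ r (Fin.castLE hd c) else 0) :=
            ENNReal.tsum_le_tsum fun r => Bs_bound hd ξ r z
        _ = 3 * ∑ c : Fin 4, ∑' r, (if Rf ξ r then GG ξ r (Fin.castLE hd c) else 0) := by
            rw [ENNReal.tsum_mul_left]
            congr 1
            rw [Summable.tsum_finsetSum fun _ _ => ENNReal.summable]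
        _ ≤ 3 * ∑ c : Fin 4, (d * ∑' n, gE n) := by
            gcongr with c
            exact sum_GG ξ _
        _ < ∞ := by
            refine ENNReal.mul_lt_top (by norm_num) ?_
            refine ENNReal.sum_lt_top.2 fun _ _ => ?_
            exact ENNReal.mul_lt_top (ENNReal.natCast_lt_top d) (lt_top_iff_ne_top.2 gE_sum)
    have h2 : ∀ᵐ w ∂(crw d p), w ∉ limsup (Bs z) atTop := measure_eq_zero_iff_ae_notMem.1 hnull
    filter_upwards [h2] with w hw
    rw [Filter.mem_limsup_iff_frequently_mem] at hw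
    exact Filter.not_frequently.1 hw
  filter_upwards [ae_all_iff.2 hz] with w hw
  exact tendsto_of_Bs w hw

end Pool.Agent.V11320.CW
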