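import Mathlib

set_option autoImplicit false

open MeasureTheory ProbabilityTheory Filter Topology
open scoped ENNReal

namespace Pool.Agent.V11320.CW

/-- Bernoulli law -/
noncomputable def ber (r : unitInterval) : Measure Bool :=
  ENNReal.ofReal r • Measure.dirac true + ENNReal.ofReal (1 - r) • Measure.dirac false

instance (r : unitInterval) : IsProbabilityMeasure (ber r) := by
  constructor
  have h0 := r.2.1
  have h1 := r.2.2
  simp only [ber, Measure.coe_add, Measure.coe_smul, Pi.add_apply, Pi.smul_apply, smul_eq_mul,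
    measure_univ, mul_one]
  rw [← ENNReal.ofReal_add h0 (by linarith)]
  simp

noncomputable def half : unitInterval := ⟨1/2, by norm_num, by norm_num⟩

/-- law of iid uniform signs -/
noncomputable def sgnLaw : Measure (ℕ → Bool) := Measure.infinitePi fun _ => ber half

instance : IsProbabilityMeasure sgnLaw := by unfold sgnLaw; infer_instance

/-- sign of a Boolean -/
def sg (b : Bool) : ℤ := if b then 1 else -1

lemma ber_half (a : Bool) : ber half {a} = ENNReal.ofReal (1/2) := by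
  simp only [ber, Measure.coe_add, Measure.coe_smul, Pi.add_apply, Pi.smul_apply, smul_eq_mul]
  rw [Measure.dirac_apply' _ (measurableSet_singleton _),
    Measure.dirac_apply' _ (measurableSet_singleton _)]
  have h1 : (half : ℝ) = 1/2 := rfl
  have h2 : (1:ℝ) - half = 1/2 := by rw [h1]; norm_num
  rw [h2, h1]
  cases a
  · rw [Set.indicator_of_notMem (by simp), Set.indicator_of_mem (by simp)]
    simp
  · rw [Set.indicator_of_mem (by simp), Set.indicator_of_notMem (by simp)]
    simp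

lemma cyl (I A : Finset ℕ) : sgnLaw {ε | ∀ i ∈ I, ε i = decide (i ∈ A)} =
    ENNReal.ofReal ((1/2)^I.card) := by
  have h1 : sgnLaw (Set.pi (I : Set ℕ) fun i => {decide (i ∈ A)}) =
      ∏ i ∈ I, (ber half) {decide (i ∈ A)} :=
    Measure.infinitePi_pi (μ := fun _ => ber half) (fun i _ => measurableSet_singleton _)
  have h2 : {ε : ℕ → Bool | ∀ i ∈ I, ε i = decide (i ∈ A)} =
      Set.pi (I : Set ℕ) fun i => {decide (i ∈ A)} := by
    ext ε; simp [Set.mem_pi]
  rw [h2, h1]
  simp only [ber_half]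
  rw [Finset.prod_const, ENNReal.ofReal_pow (by norm_num)]

/-- subsets with prescribed signed sum -/
def FF (I : Finset ℕ) (ℓ : ℕ → ℕ) (a : ℤ) : Finset (Finset ℕ) :=
  I.powerset.filter fun A => ∑ i ∈ I, (if i ∈ A then (ℓ i : ℤ) else -(ℓ i : ℤ)) = a

lemma FF_card (I : Finset ℕ) (ℓ : ℕ → ℕ) (hℓ : ∀ i ∈ I, 0 < ℓ i) (a : ℤ) :
    (FF I ℓ a).card ≤ I.card.choose (I.card / 2) := by
  classical
  set φ : Finset ℕ → Finset I := fun A => A.subtype (· ∈ I) with hφ
  have hinj : Set.InjOn φ (FF I ℓ a) := by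
    intro A hA B hB h
    have hA' : A ⊆ I := (Finset.mem_powerset.1 (Finset.mem_filter.1 hA).1)
    have hB' : B ⊆ I := (Finset.mem_powerset.1 (Finset.mem_filter.1 hB).1)
    ext i
    constructor
    · intro hi
      have : (⟨i, hA' hi⟩ : I) ∈ φ A := by simp [hφ, hi]
      rw [h] at this
      simpa [hφ] using this
    · intro hi
      have : (⟨i, hB' hi⟩ : I) ∈ φ B := by simp [hφ, hi]
      rw [← h] at this
      simpa [hφ] using this
  have hanti : IsAntichain (· ⊆ ·) (((FF I ℓ a).image φ : Finset (Finset I)) : Set (Finset I)) := by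
    intro X hX Y hY hne hsub
    simp only [Finset.coe_image, Set.mem_image] at hX hY
    obtain ⟨A, hA, rfl⟩ := hX
    obtain ⟨B, hB, rfl⟩ := hY
    have hA2 := (Finset.mem_filter.1 hA)
    have hB2 := (Finset.mem_filter.1 hB)
    have hA' : A ⊆ I := Finset.mem_powerset.1 hA2.1
    have hB' : B ⊆ I := Finset.mem_powerset.1 hB2.1
    have hAB : A ⊆ B := by
      intro i hi
      have : (⟨i, hA' hi⟩ : I) ∈ φ A := by simp [hφ, hi]
      have := hsub this
      simpa [hφ] using this
    have hneAB : A ≠ B := fun h => hne (by rw [h])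
    obtain ⟨i, hiB, hiA⟩ := Finset.exists_of_ssubset (hAB.ssubset_of_ne hneAB)
    have hlt : ∑ i ∈ I, (if i ∈ A then (ℓ i : ℤ) else -(ℓ i : ℤ)) <
        ∑ i ∈ I, (if i ∈ B then (ℓ i : ℤ) else -(ℓ i : ℤ)) := by
      refine Finset.sum_lt_sum (fun k hk => ?_) ⟨i, hB' hiB, ?_⟩
      · by_cases h1 : k ∈ A
        · rw [if_pos h1, if_pos (hAB h1)]
        · rw [if_neg h1]
          split_ifs <;> omega
      · rw [if_neg hiA, if_pos hiB]
        have := hℓ i (hB' hiB)
        omega
    have h3 := hA2.2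
    have h4 := hB2.2
    omega
  have h1 := hanti.sperner
  rw [Finset.card_image_of_injOn hinj, Fintype.card_coe] at h1
  exact h1

lemma cb_bound (k : ℕ) : (2 * k + 1) * (Nat.centralBinom k)^2 ≤ 16^k := by
  induction k with
  | zero => simp
  | succ k ih =>
    have h := Nat.succ_mul_centralBinom_succ k
    have h2 : (k+1)^2 * ((2 * (k+1) + 1) * (Nat.centralBinom (k+1))^2) ≤ (k+1)^2 * 16^(k+1) := by
      have e : (k+1)^2 * ((2 * (k+1) + 1) * (Nat.centralBinom (k+1))^2) =
          (2 * k + 3) * ((k+1) * Nat.centralBinom (k+1))^2 := by ring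
      rw [e, h]
      have e2 : (2 * k + 3) * (2 * (2 * k + 1) * Nat.centralBinom k)^2 =
          4 * (2*k+3) * (2*k+1) * ((2 * k + 1) * (Nat.centralBinom k)^2) := by ring
      rw [e2]
      calc 4 * (2*k+3) * (2*k+1) * ((2 * k + 1) * (Nat.centralBinom k)^2)
          ≤ 4 * (2*k+3) * (2*k+1) * 16^k := Nat.mul_le_mul_left _ ih
        _ ≤ 16 * (k+1)^2 * 16^k := Nat.mul_le_mul_right _ (by nlinarith)
        _ = (k+1)^2 * 16^(k+1) := by ring
    exact Nat.le_of_mul_le_mul_left h2 (by positivity)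

lemma choose_bound (n : ℕ) : ((n.choose (n/2) : ℝ)) * (1/2)^n ≤ 1 / Real.sqrt (n + 1) := by
  have key : ∀ k : ℕ, (Nat.centralBinom k : ℝ) * (1/2)^(2*k) ≤ 1 / Real.sqrt (2 * k + 1) := by
    intro k
    have h : ((2 * k + 1) * (Nat.centralBinom k)^2 : ℝ) ≤ 16^k := by exact_mod_cast cb_bound k
    have hs : 0 < Real.sqrt (2 * k + 1) := Real.sqrt_pos.2 (by positivity)
    rw [le_div_iff₀ hs]
    apply le_of_sq_le_sq _ (by norm_num)
    have e : ((Nat.centralBinom k : ℝ) * (1/2)^(2*k) * Real.sqrt (2 * k + 1))^2 =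
        ((2 * k + 1) * (Nat.centralBinom k)^2) * (1/16)^k := by
      rw [mul_pow, mul_pow, Real.sq_sqrt (by positivity), ← pow_mul]
      have : ((1:ℝ)/2)^(2*k*2) = (1/16)^k := by
        rw [show 2*k*2 = 4*k by ring, pow_mul]; norm_num
      rw [this]; ring
    rw [e, one_pow]
    calc ((2 * k + 1) * (Nat.centralBinom k)^2 : ℝ) * (1/16)^k ≤ 16^k * (1/16)^k :=
          mul_le_mul_of_nonneg_right h (by positivity)
      _ = 1 := by rw [← mul_pow]; norm_num
  rcases Nat.even_or_odd' n with ⟨k, rfl | rfl⟩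
  · have h := key k
    rw [Nat.centralBinom_eq_two_mul_choose] at h
    have : 2 * k / 2 = k := by omega
    rw [this]
    push_cast
    exact h
  · have h := key (k+1)
    have h2 : (2*k+1) / 2 = k := by omega
    rw [h2]
    have h3 : (Nat.centralBinom (k+1)) = 2 * (2*k+1).choose k := by
      rw [Nat.centralBinom_eq_two_mul_choose, show 2 * (k+1) = (2*k+1) + 1 by ring,
        Nat.choose_succ_succ' (2*k+1) k]
      have : (2*k+1).choose (k+1) = (2*k+1).choose k := by
        rw [← Nat.choose_symm_half]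
      rw [this]; ring
    rw [h3] at h
    push_cast at h ⊢
    have e : (2 * ((2*k+1).choose k : ℝ)) * (1/2)^(2*(k+1)) = ((2*k+1).choose k : ℝ) * (1/2)^(2*k+1) := by
      rw [show 2*(k+1) = (2*k+1)+1 by ring, pow_succ]; ring
    rw [e] at h
    refine h.trans ?_
    apply one_div_le_one_div_of_le
    · exact Real.sqrt_pos.2 (by positivity)
    · apply Real.sqrt_le_sqrt; linarith

/-- weight -/
noncomputable def gw (n : ℕ) : ℝ := 1 / Real.sqrt (n + 1)

lemma gw_pos (n : ℕ) : 0 < gw n := by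
  unfold gw
  have : 0 < Real.sqrt ((n:ℝ) + 1) := Real.sqrt_pos.2 (by positivity)
  positivity

/-- three coordinates -/
lemma three (I1 I2 I3 : Finset ℕ) (h12 : Disjoint I1 I2) (h13 : Disjoint I1 I3)
    (h23 : Disjoint I2 I3) (ℓ : ℕ → ℕ) (hℓ : ∀ i ∈ I1 ∪ I2 ∪ I3, 0 < ℓ i) (a1 a2 a3 : ℤ) :
    sgnLaw {ε | ∑ i ∈ I1, sg (ε i) * ℓ i = a1 ∧ ∑ i ∈ I2, sg (ε i) * ℓ i = a2 ∧
      ∑ i ∈ I3, sg (ε i) * ℓ i = a3} ≤ ENNReal.ofReal (gw I1.card * gw I2.card * gw I3.card) := by
  classical
  set I := I1 ∪ I2 ∪ I3 with hI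
  have hsub : {ε : ℕ → Bool | ∑ i ∈ I1, sg (ε i) * ℓ i = a1 ∧ ∑ i ∈ I2, sg (ε i) * ℓ i = a2 ∧
      ∑ i ∈ I3, sg (ε i) * ℓ i = a3} ⊆
      ⋃ t ∈ (FF I1 ℓ a1 ×ˢ FF I2 ℓ a2 ×ˢ FF I3 ℓ a3),
        {ε : ℕ → Bool | ∀ i ∈ I, ε i = decide (i ∈ t.1 ∪ t.2.1 ∪ t.2.2)} := by
    rintro ε ⟨h1, h2, h3⟩
    simp only [Set.mem_iUnion]
    have hmem : ∀ (J : Finset ℕ) (a : ℤ), ∑ i ∈ J, sg (ε i) * ℓ i = a →
        J.filter (fun i => ε i = true) ∈ FF J ℓ a := by
      intro J a h
      unfold FF
      rw [Finset.mem_filter, Finset.mem_powerset]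
      refine ⟨Finset.filter_subset _ _, ?_⟩
      rw [← h]
      refine Finset.sum_congr rfl fun i hi => ?_
      unfold sg
      by_cases hε : ε i = true
      · rw [if_pos (Finset.mem_filter.2 ⟨hi, hε⟩), hε]; simp
      · have hni : i ∉ J.filter (fun i => ε i = true) := by simp [hε]
        rw [if_neg hni]
        simp [hε]
    refine ⟨(I1.filter (fun i => ε i = true), I2.filter (fun i => ε i = true),
      I3.filter (fun i => ε i = true)), ?_, ?_⟩
    · simp only [Finset.mem_product]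
      exact ⟨hmem _ _ h1, hmem _ _ h2, hmem _ _ h3⟩
    · intro i hi
      simp only [Finset.mem_union, Finset.mem_filter]
      rw [hI, Finset.mem_union, Finset.mem_union] at hi
      cases hε : ε i
      · simp
      · simp
        tauto
  refine (measure_mono hsub).trans ((measure_biUnion_finset_le _ _).trans ?_)
  simp only [cyl]
  rw [Finset.sum_const, nsmul_eq_mul]
  have hcard : I.card = I1.card + I2.card + I3.card := by
    rw [hI, Finset.card_union_of_disjoint (Finset.disjoint_union_left.2 ⟨h13, h23⟩),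
      Finset.card_union_of_disjoint h12]
  rw [← ENNReal.ofReal_natCast, ← ENNReal.ofReal_mul (by positivity)]
  apply ENNReal.ofReal_le_ofReal
  rw [Finset.card_product, Finset.card_product, hcard, pow_add, pow_add]
  push_cast
  have b : ∀ (J : Finset ℕ) (a : ℤ), (∀ i ∈ J, 0 < ℓ i) →
      ((FF J ℓ a).card : ℝ) * (1/2)^J.card ≤ gw J.card := by
    intro J a hJ
    have h1 : ((FF J ℓ a).card : ℝ) ≤ (J.card.choose (J.card/2) : ℝ) := by
      exact_mod_cast FF_card J ℓ hJ a
    exact (mul_le_mul_of_nonneg_right h1 (by positivity)).trans (choose_bound _)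
  have b1 := b I1 a1 fun i hi => hℓ i (by rw [hI]; simp [hi])
  have b2 := b I2 a2 fun i hi => hℓ i (by rw [hI]; simp [hi])
  have b3 := b I3 a3 fun i hi => hℓ i (by rw [hI]; simp [hi])
  calc ((FF I1 ℓ a1).card : ℝ) * ((FF I2 ℓ a2).card * (FF I3 ℓ a3).card) *
        ((1/2)^I1.card * (1/2)^I2.card * (1/2)^I3.card)
      = (((FF I1 ℓ a1).card : ℝ) * (1/2)^I1.card) * (((FF I2 ℓ a2).card : ℝ) * (1/2)^I2.card) *
        (((FF I3 ℓ a3).card : ℝ) * (1/2)^I3.card) := by ring
    _ ≤ gw I1.card * gw I2.card * gw I3.card := by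
        refine mul_le_mul (mul_le_mul b1 b2 (by positivity) (gw_pos _).le) b3 (by positivity) ?_
        have := gw_pos I1.card; have := gw_pos I2.card
        positivity

end Pool.Agent.V11320.CW
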