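import Pool.Agent.V11320.CW.Four

set_option autoImplicit false

open MeasureTheory ProbabilityTheory Filter Topology
open scoped ENNReal

namespace Pool.Agent.V11320.CW

/-- signed sum -/
def ss (I : Finset ℕ) (ℓ : ℕ → ℕ) (A : Finset ℕ) : ℤ :=
  ∑ i ∈ I, (if i ∈ A then (ℓ i : ℤ) else -(ℓ i : ℤ))

lemma ss_filter (I : Finset ℕ) (ℓ : ℕ → ℕ) (ε : ℕ → Bool) :
    ss I ℓ (I.filter fun i => ε i = true) = ∑ i ∈ I, sg (ε i) * (ℓ i : ℤ) := by
  unfold ss
  refine Finset.sum_congr rfl fun i hi => ?_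
  unfold sg
  by_cases hε : ε i = true
  · rw [if_pos (Finset.mem_filter.2 ⟨hi, hε⟩), hε]; simp
  · have hni : i ∉ I.filter (fun i => ε i = true) := by simp [hε]
    rw [if_neg hni]
    simp [hε]

lemma threeF (I1 I2 I3 : Finset ℕ) (h12 : Disjoint I1 I2) (h13 : Disjoint I1 I3)
    (h23 : Disjoint I2 I3) (F1 F2 F3 : Finset (Finset ℕ)) :
    sgnLaw {ε | I1.filter (fun i => ε i = true) ∈ F1 ∧ I2.filter (fun i => ε i = true) ∈ F2 ∧
      I3.filter (fun i => ε i = true) ∈ F3} ≤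
      ENNReal.ofReal (((F1.card : ℝ) * (1/2)^I1.card) * ((F2.card : ℝ) * (1/2)^I2.card) *
        ((F3.card : ℝ) * (1/2)^I3.card)) := by
  classical
  set I := I1 ∪ I2 ∪ I3 with hI
  have hsub : {ε : ℕ → Bool | I1.filter (fun i => ε i = true) ∈ F1 ∧
      I2.filter (fun i => ε i = true) ∈ F2 ∧ I3.filter (fun i => ε i = true) ∈ F3} ⊆
      ⋃ t ∈ (F1 ×ˢ F2 ×ˢ F3),
        {ε : ℕ → Bool | ∀ i ∈ I, ε i = decide (i ∈ (t.1 ∩ I1) ∪ (t.2.1 ∩ I2) ∪ (t.2.2 ∩ I3))} := by
    rintro ε ⟨h1, h2, h3⟩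
    simp only [Set.mem_iUnion]
    refine ⟨(I1.filter (fun i => ε i = true), I2.filter (fun i => ε i = true),
      I3.filter (fun i => ε i = true)), ?_, ?_⟩
    · simp only [Finset.mem_product]
      exact ⟨h1, h2, h3⟩
    · intro i hi
      simp only [Finset.mem_union, Finset.mem_filter, Finset.mem_inter]
      rw [hI, Finset.mem_union, Finset.mem_union] at hi
      cases hε : ε i
      · simp
      · simp
        tauto
  refine (measure_mono hsub).trans ((measure_biUnion_finset_le _ _).trans ?_)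
  simp only [cyl]
  rw [Finset.sum_const, nsmul_eq_mul]
  have hcard : I.card = I1.card + I2.card + I3.card := by
    rw [hI, Finset.card_union_of_disjoint (Finset.disjoint_union_left.2 ⟨h13, h23⟩),
      Finset.card_union_of_disjoint h12]
  rw [← ENNReal.ofReal_natCast, ← ENNReal.ofReal_mul (by positivity)]
  apply ENNReal.ofReal_le_ofReal
  rw [Finset.card_product, Finset.card_product, hcard, pow_add, pow_add]
  push_cast
  apply le_of_eq
  ring

lemma FF_gw (I : Finset ℕ) (ℓ : ℕ → ℕ) (hℓ : ∀ i ∈ I, 0 < ℓ i) (a : ℤ) :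
    ((FF I ℓ a).card : ℝ) * (1/2)^I.card ≤ gw I.card := by
  have h1 : ((FF I ℓ a).card : ℝ) ≤ (I.card.choose (I.card/2) : ℝ) := by
    exact_mod_cast FF_card I ℓ hℓ a
  exact (mul_le_mul_of_nonneg_right h1 (by positivity)).trans (choose_bound _)

/-- subsets with signed sum in an interval -/
def FI (I : Finset ℕ) (ℓ : ℕ → ℕ) (lo : ℤ) (len : ℕ) : Finset (Finset ℕ) :=
  I.powerset.filter fun A => lo ≤ ss I ℓ A ∧ ss I ℓ A < lo + len

lemma FI_card (I G : Finset ℕ) (hG : G ⊆ I) (ℓ : ℕ → ℕ) (lo : ℤ) (len : ℕ)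
    (hℓ : ∀ i ∈ G, len ≤ 2 * ℓ i) :
    (FI I ℓ lo len).card ≤ G.card.choose (G.card / 2) * 2^(I.card - G.card) := by
  classical
  have himg : ((FI I ℓ lo len).image fun A => A \ G).card ≤ 2^(I.card - G.card) := by
    rw [← Finset.card_sdiff_of_subset hG, ← Finset.card_powerset]
    apply Finset.card_le_card
    intro C hC
    rw [Finset.mem_image] at hC
    obtain ⟨A, hA, rfl⟩ := hC
    rw [Finset.mem_powerset]
    exact Finset.sdiff_subset_sdiff (Finset.mem_powerset.1 (Finset.mem_filter.1 hA).1)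
      (Finset.Subset.refl G)
  refine (Finset.card_le_mul_card_image (f := fun A => A \ G) (FI I ℓ lo len)
    (G.card.choose (G.card / 2)) ?_).trans (Nat.mul_le_mul_left _ himg)
  intro C _
  set φ : Finset ℕ → Finset G := fun A => A.subtype (· ∈ G) with hφ
  set X := (FI I ℓ lo len).filter fun A => A \ G = C with hX
  have hkey : ∀ A ∈ X, ∀ B ∈ X, φ A ⊆ φ B → A ⊆ B := by
    intro A hA B hB h i hi
    by_cases hiG : i ∈ G
    · have : (⟨i, hiG⟩ : G) ∈ φ A := by simp [hφ, hi]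
      have := h this
      simpa [hφ] using this
    · have h1 : i ∈ A \ G := Finset.mem_sdiff.2 ⟨hi, hiG⟩
      rw [(Finset.mem_filter.1 hA).2, ← (Finset.mem_filter.1 hB).2] at h1
      exact (Finset.mem_sdiff.1 h1).1
  have hinj : Set.InjOn φ X := by
    intro A hA B hB h
    exact Finset.Subset.antisymm (hkey A hA B hB (by rw [h])) (hkey B hB A hA (by rw [h]))
  have hanti : IsAntichain (· ⊆ ·) ((X.image φ : Finset (Finset G)) : Set (Finset G)) := by
    intro P hP Q hQ hne hsub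
    simp only [Finset.coe_image, Set.mem_image] at hP hQ
    obtain ⟨A, hA, rfl⟩ := hP
    obtain ⟨B, hB, rfl⟩ := hQ
    have hAB : A ⊆ B := hkey A hA B hB hsub
    have hneAB : A ≠ B := fun h => hne (by rw [h])
    obtain ⟨i, hiB, hiA⟩ := Finset.exists_of_ssubset (hAB.ssubset_of_ne hneAB)
    have hA1 := Finset.mem_filter.1 (Finset.mem_filter.1 hA).1
    have hB1 := Finset.mem_filter.1 (Finset.mem_filter.1 hB).1
    have hiI : i ∈ I := Finset.mem_powerset.1 hB1.1 hiB
    have hiG : i ∈ G := by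
      by_contra hiG
      have h1 : i ∈ B \ G := Finset.mem_sdiff.2 ⟨hiB, hiG⟩
      rw [(Finset.mem_filter.1 hB).2, ← (Finset.mem_filter.1 hA).2] at h1
      exact hiA (Finset.mem_sdiff.1 h1).1
    have hle : ss I ℓ A + 2 * ℓ i ≤ ss I ℓ B := by
      unfold ss
      rw [← Finset.add_sum_erase I _ hiI, ← Finset.add_sum_erase I
        (fun i => if i ∈ B then (ℓ i : ℤ) else -(ℓ i : ℤ)) hiI, if_neg hiA, if_pos hiB]
      have : ∑ x ∈ I.erase i, (if x ∈ A then (ℓ x : ℤ) else -(ℓ x : ℤ)) ≤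
          ∑ x ∈ I.erase i, (if x ∈ B then (ℓ x : ℤ) else -(ℓ x : ℤ)) := by
        refine Finset.sum_le_sum fun k _ => ?_
        by_cases h1 : k ∈ A
        · rw [if_pos h1, if_pos (hAB h1)]
        · rw [if_neg h1]
          split_ifs <;> omega
      linarith
    have h2 := hℓ i hiG
    have h3 := hA1.2
    have h4 := hB1.2
    omega
  have h1 := hanti.sperner
  rw [Finset.card_image_of_injOn hinj, Fintype.card_coe] at h1
  exact h1

lemma FI_gw (I G : Finset ℕ) (hG : G ⊆ I) (ℓ : ℕ → ℕ) (lo : ℤ) (len : ℕ)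
    (hℓ : ∀ i ∈ G, len ≤ 2 * ℓ i) :
    ((FI I ℓ lo len).card : ℝ) * (1/2)^I.card ≤ gw G.card := by
  have h1 : ((FI I ℓ lo len).card : ℝ) ≤ (G.card.choose (G.card / 2) : ℝ) * 2^(I.card - G.card) := by
    exact_mod_cast FI_card I G hG ℓ lo len hℓ
  have hc := Finset.card_le_card hG
  have e : ((1:ℝ)/2)^I.card = (1/2)^(I.card - G.card) * (1/2)^G.card := by
    rw [← pow_add]; congr 1; omega
  calc ((FI I ℓ lo len).card : ℝ) * (1/2)^I.card
      ≤ ((G.card.choose (G.card / 2) : ℝ) * 2^(I.card - G.card)) * (1/2)^I.card :=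
        mul_le_mul_of_nonneg_right h1 (by positivity)
    _ = ((G.card.choose (G.card / 2) : ℝ) * (1/2)^G.card) * (2 * (1/2))^(I.card - G.card) := by
        rw [e, mul_pow]; ring
    _ = (G.card.choose (G.card / 2) : ℝ) * (1/2)^G.card := by norm_num
    _ ≤ gw G.card := choose_bound _

lemma FF_sep (I R : Finset ℕ) (hR : R ⊆ I) (ℓ : ℕ → ℕ) (hℓ : ∀ i ∈ R, ℓ i ≠ 0) (a : ℤ)
    (hinj : Set.InjOn (fun i => Nat.log 2 (ℓ i)) R)
    (hsep : ∀ i ∈ R, ∀ j ∈ R, Nat.log 2 (ℓ i) < Nat.log 2 (ℓ j) →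
      Nat.log 2 (ℓ i) + 2 ≤ Nat.log 2 (ℓ j)) :
    (FF I ℓ a).card ≤ 2^(I.card - R.card) := by
  classical
  rw [← Finset.card_sdiff_of_subset hR, ← Finset.card_powerset]
  apply Finset.card_le_card_of_injOn (fun A => A \ R)
  · intro A hA
    have hA' := Finset.mem_powerset.1 (Finset.mem_filter.1 hA).1
    exact Finset.mem_coe.2 (Finset.mem_powerset.2
      (Finset.sdiff_subset_sdiff hA' (Finset.Subset.refl R)))
  · intro A hA B hB hAB
    simp only at hAB
    by_contra hne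
    have hA1 := Finset.mem_filter.1 (Finset.mem_coe.1 hA)
    have hB1 := Finset.mem_filter.1 (Finset.mem_coe.1 hB)
    set D := R.filter fun i => ¬ (i ∈ A ↔ i ∈ B) with hD
    have hout : ∀ i, i ∉ D → (i ∈ A ↔ i ∈ B) := by
      intro i hi
      by_cases hiR : i ∈ R
      · by_contra hc
        exact hi (Finset.mem_filter.2 ⟨hiR, hc⟩)
      · constructor
        · intro h
          have h1 : i ∈ A \ R := Finset.mem_sdiff.2 ⟨h, hiR⟩
          rw [hAB] at h1
          exact (Finset.mem_sdiff.1 h1).1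
        · intro h
          have h1 : i ∈ B \ R := Finset.mem_sdiff.2 ⟨h, hiR⟩
          rw [← hAB] at h1
          exact (Finset.mem_sdiff.1 h1).1
    have hDne : D.Nonempty := by
      by_contra hc
      rw [Finset.not_nonempty_iff_eq_empty] at hc
      apply hne
      ext i
      exact hout i (by rw [hc]; simp)
    obtain ⟨m, hm, hmax⟩ := Finset.exists_max_image D (fun i => Nat.log 2 (ℓ i)) hDne
    set t : ℕ → ℤ := fun i => (if i ∈ A then (ℓ i : ℤ) else -(ℓ i : ℤ)) -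
      (if i ∈ B then (ℓ i : ℤ) else -(ℓ i : ℤ)) with ht
    have hsum : ∑ i ∈ I, t i = 0 := by
      rw [ht, Finset.sum_sub_distrib, hA1.2, hB1.2, sub_self]
    have hDI : D ⊆ I := (Finset.filter_subset _ _).trans hR
    have hsum2 : ∑ i ∈ D, t i = 0 := by
      rw [← hsum]
      apply Finset.sum_subset hDI
      intro i _ hi
      have := hout i hi
      simp only [ht]
      by_cases h : i ∈ A
      · rw [if_pos h, if_pos (this.1 h)]; ring
      · rw [if_neg h, if_neg (fun h2 => h (this.2 h2))]; ring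
    have habs : ∀ i ∈ D, |t i| = 2 * (ℓ i : ℤ) := by
      intro i hi
      have h1 := (Finset.mem_filter.1 hi).2
      simp only [ht]
      by_cases h : i ∈ A
      · have h2 : i ∉ B := fun h2 => h1 ⟨fun _ => h2, fun _ => h⟩
        rw [if_pos h, if_neg h2, abs_of_nonneg (by omega)]; ring
      · have h2 : i ∈ B := by
          by_contra h2
          exact h1 ⟨fun h3 => absurd h3 h, fun h3 => absurd h3 h2⟩
        rw [if_neg h, if_pos h2, abs_of_nonpos (by omega)]; ring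
    rw [← Finset.add_sum_erase D _ hm] at hsum2
    have h1 : |t m| ≤ ∑ i ∈ D.erase m, |t i| := by
      have : t m = -∑ i ∈ D.erase m, t i := by linarith
      rw [this, abs_neg]
      exact Finset.abs_sum_le_sum_abs _ _
    rw [habs m hm, Finset.sum_congr rfl (fun i hi => habs i (Finset.mem_of_mem_erase hi)),
      ← Finset.mul_sum] at h1
    have h2 : ℓ m ≤ ∑ i ∈ D.erase m, ℓ i := by
      have : (ℓ m : ℤ) ≤ ∑ i ∈ D.erase m, (ℓ i : ℤ) := by linarith
      exact_mod_cast this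
    have hmR : m ∈ R := (Finset.mem_filter.1 hm).1
    have h3 : ∑ i ∈ D.erase m, ℓ i ≤ ∑ i ∈ D.erase m, 2^(Nat.log 2 (ℓ i) + 1) :=
      Finset.sum_le_sum fun i _ => (Nat.lt_pow_succ_log_self (by norm_num) _).le
    have h4 : ∑ i ∈ D.erase m, 2^(Nat.log 2 (ℓ i) + 1) =
        ∑ k ∈ (D.erase m).image (fun i => Nat.log 2 (ℓ i) + 1), 2^k := by
      rw [Finset.sum_image]
      intro i hi j hj hij
      apply hinj (Finset.mem_filter.1 (Finset.mem_of_mem_erase (Finset.mem_coe.1 hi))).1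
        (Finset.mem_filter.1 (Finset.mem_of_mem_erase (Finset.mem_coe.1 hj))).1
      simp only at hij ⊢
      omega
    have h5 : ∑ k ∈ (D.erase m).image (fun i => Nat.log 2 (ℓ i) + 1), 2^k <
        2^(Nat.log 2 (ℓ m)) := by
      apply Nat.geomSum_lt le_rfl
      intro k hk
      rw [Finset.mem_image] at hk
      obtain ⟨i, hi, rfl⟩ := hk
      have hiD := Finset.mem_of_mem_erase hi
      have hiR : i ∈ R := (Finset.mem_filter.1 hiD).1
      have hne' : Nat.log 2 (ℓ i) ≠ Nat.log 2 (ℓ m) := fun h =>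
        (Finset.ne_of_mem_erase hi) (hinj hiR hmR h)
      have := hsep i hiR m hmR (lt_of_le_of_ne (hmax i hiD) hne')
      omega
    have h6 := Nat.pow_log_le_self 2 (hℓ m hmR)
    omega

lemma FF_sepg (I R : Finset ℕ) (hR : R ⊆ I) (ℓ : ℕ → ℕ) (hℓ : ∀ i ∈ R, ℓ i ≠ 0) (a : ℤ)
    (hinj : Set.InjOn (fun i => Nat.log 2 (ℓ i)) R)
    (hsep : ∀ i ∈ R, ∀ j ∈ R, Nat.log 2 (ℓ i) < Nat.log 2 (ℓ j) →
      Nat.log 2 (ℓ i) + 2 ≤ Nat.log 2 (ℓ j)) :
    ((FF I ℓ a).card : ℝ) * (1/2)^I.card ≤ (1/2)^R.card := by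
  have h1 : ((FF I ℓ a).card : ℝ) ≤ 2^(I.card - R.card) := by
    exact_mod_cast FF_sep I R hR ℓ hℓ a hinj hsep
  have hc := Finset.card_le_card hR
  have e : ((1:ℝ)/2)^I.card = (1/2)^(I.card - R.card) * (1/2)^R.card := by
    rw [← pow_add]; congr 1; omega
  calc ((FF I ℓ a).card : ℝ) * (1/2)^I.card
      ≤ 2^(I.card - R.card) * (1/2)^I.card := mul_le_mul_of_nonneg_right h1 (by positivity)
    _ = (2 * (1/2))^(I.card - R.card) * (1/2)^R.card := by rw [e, mul_pow]; ring
    _ = (1/2)^R.card := by norm_num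

lemma gw_le_one (n : ℕ) : gw n ≤ 1 := by
  unfold gw
  rw [div_le_one (Real.sqrt_pos.2 (by positivity))]
  rw [show (1:ℝ) = Real.sqrt 1 by simp]
  apply Real.sqrt_le_sqrt
  have : (0:ℝ) ≤ n := by positivity
  simp

lemma gw_split (n N : ℕ) : gw N ≤ 3 * gw n + 2^(n/8) * (1/2)^N := by
  by_cases h : N ≤ n/8
  · have h1 : (1:ℝ) ≤ 2^(n/8) * (1/2)^N := by
      have : (2:ℝ)^(n/8) = 2^(n/8 - N) * 2^N := by rw [← pow_add]; congr 1; omega
      rw [this, mul_assoc, ← mul_pow]
      norm_num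
      exact one_le_pow₀ (by norm_num)
    have := gw_le_one N
    have := gw_pos n
    linarith
  · have h1 : n + 1 ≤ 8 * (N + 1) := by omega
    have h2 : gw N ≤ 3 * gw n := by
      unfold gw
      have hn : 0 < Real.sqrt ((n:ℝ)+1) := Real.sqrt_pos.2 (by positivity)
      have hN : 0 < Real.sqrt ((N:ℝ)+1) := Real.sqrt_pos.2 (by positivity)
      rw [mul_one_div, div_le_div_iff₀ hN hn, one_mul]
      have h3 : (n:ℝ) + 1 ≤ 8 * (N+1) := by exact_mod_cast h1
      apply Real.sqrt_le_iff.2 ⟨by positivity, ?_⟩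
      rw [mul_pow, Real.sq_sqrt (by positivity)]
      have : (0:ℝ) ≤ N := by positivity
      linarith
    have : (0:ℝ) ≤ 2^(n/8) * (1/2)^N := by positivity
    linarith

lemma gw_prod (n m Na Nb Mc : ℕ) : gw Na * gw Nb * gw Mc ≤
    2^(n/8) * (1/2)^Na + 3 * (2^(n/8) * (1/2)^Nb) + 27 * (gw n)^2 * gw m +
      9 * (gw n)^2 * (2^(m/8) * (1/2)^Mc) := by
  have a := gw_split n Na
  have b := gw_split n Nb
  have c := gw_split m Mc
  have pa := gw_pos Na
  have pb := gw_pos Nb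
  have pc := gw_pos Mc
  have pn := gw_pos n
  have qa := gw_le_one Na
  have qb := gw_le_one Nb
  have qc := gw_le_one Mc
  have qn := gw_le_one n
  set A : ℝ := 2^(n/8) * (1/2)^Na with hA
  set B : ℝ := 2^(n/8) * (1/2)^Nb with hB
  set C : ℝ := 2^(m/8) * (1/2)^Mc with hC
  have zA : 0 ≤ A := by positivity
  have zB : 0 ≤ B := by positivity
  calc gw Na * gw Nb * gw Mc = gw Na * (gw Nb * gw Mc) := by ring
    _ ≤ (3 * gw n + A) * (gw Nb * gw Mc) := mul_le_mul_of_nonneg_right a (by positivity)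
    _ = 3 * gw n * gw Mc * gw Nb + A * (gw Nb * gw Mc) := by ring
    _ ≤ 3 * gw n * gw Mc * (3 * gw n + B) + A * 1 := by
        refine add_le_add (mul_le_mul_of_nonneg_left b (by positivity))
          (mul_le_mul_of_nonneg_left ?_ zA)
        calc gw Nb * gw Mc ≤ 1 * 1 := mul_le_mul qb qc pc.le (by norm_num)
          _ = 1 := by norm_num
    _ = 9 * (gw n)^2 * gw Mc + 3 * ((gw n * gw Mc) * B) + A := by ring
    _ ≤ 9 * (gw n)^2 * (3 * gw m + C) + 3 * (1 * B) + A := by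
        refine add_le_add (add_le_add (mul_le_mul_of_nonneg_left c (by positivity))
          (mul_le_mul_of_nonneg_left (mul_le_mul_of_nonneg_right ?_ zB) (by norm_num))) le_rfl
        calc gw n * gw Mc ≤ 1 * 1 := mul_le_mul qn qc pc.le (by norm_num)
          _ = 1 := by norm_num
    _ = A + 3 * B + 27 * (gw n)^2 * gw m + 9 * (gw n)^2 * C := by ring

end Pool.Agent.V11320.CW
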