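import Pool.Agent.V11320.CW.ThreeA

set_option autoImplicit false

open MeasureTheory ProbabilityTheory Filter Topology
open scoped ENNReal

namespace Pool.Agent.V11320.CW

noncomputable def UU (R : Finset ℕ) (a : Fin 3) (J : ℕ → Fin 3) : ℝ≥0∞ :=
  ENNReal.ofReal ((1/2)^((R.filter fun i => J i = a).card))

lemma meas_UU (R : Finset ℕ) (a : Fin 3) : Measurable (UU R a) := by
  unfold UU
  have h : Measurable fun J : ℕ → Fin 3 => (R.filter fun i => J i = a).card := by
    have e : (fun J : ℕ → Fin 3 => (R.filter fun i => J i = a).card) =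
        fun J : ℕ → Fin 3 => ∑ i ∈ R, if J i = a then 1 else 0 := by
      ext J; rw [Finset.card_filter]
    rw [e]
    refine Finset.measurable_sum _ fun i _ => ?_
    exact (measurable_of_countable (fun b : Fin 3 => if b = a then 1 else 0)).comp
      (measurable_pi_apply i)
  exact (measurable_of_countable (fun n : ℕ => ENNReal.ofReal ((1/2)^n))).comp h

lemma E_one (i : ℕ) (a : Fin 3) :
    ∫⁻ J, ENNReal.ofReal (if J i = a then 1/2 else 1) ∂(axLaw 3) = ENNReal.ofReal (5/6) := by
  have hp : MeasurePreserving (Function.eval i) (axLaw 3) (uniformOn (Set.univ : Set (Fin 3))) :=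
    measurePreserving_eval_infinitePi _ i
  have h1 := hp.lintegral_comp (f := fun b : Fin 3 => ENNReal.ofReal (if b = a then 1/2 else 1))
    (measurable_of_countable _)
  have h2 : ∫⁻ J, ENNReal.ofReal (if J i = a then 1/2 else 1) ∂(axLaw 3) =
    ∫⁻ J, (fun b : Fin 3 => ENNReal.ofReal (if b = a then 1/2 else 1)) (Function.eval i J)
      ∂(axLaw 3) := rfl
  rw [h2, h1, lintegral_fintype]
  have hu : ∀ b : Fin 3, (uniformOn (Set.univ : Set (Fin 3))) {b} = ENNReal.ofReal (1/3) := by
    intro b
    rw [uniformOn_univ]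
    simp only [Measure.count_singleton, Fintype.card_fin]
    rw [one_div, one_div, ENNReal.ofReal_inv_of_pos (by norm_num)]
    norm_num
  simp only [hu]
  rw [Finset.sum_congr rfl (fun b _ => (ENNReal.ofReal_mul (by split_ifs <;> norm_num)).symm),
    ← ENNReal.ofReal_sum_of_nonneg (fun b _ => by split_ifs <;> norm_num)]
  congr 1
  have h20 : (2 : Fin 3) ≠ 0 := by decide
  have h21 : (2 : Fin 3) ≠ 1 := by decide
  have h10 : (1 : Fin 3) ≠ 0 := by decide
  have key : ∀ a : Fin 3, a = 0 ∨ a = 1 ∨ a = 2 := by decide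
  rw [Fin.sum_univ_three]
  rcases key a with h | h | h
  · rw [h, if_pos rfl, if_neg h10, if_neg h20]; norm_num
  · rw [h, if_pos rfl, if_neg h10.symm, if_neg h21]; norm_num
  · rw [h, if_pos rfl, if_neg h20.symm, if_neg h21.symm]; norm_num

lemma E_UU (R : Finset ℕ) (a : Fin 3) :
    ∫⁻ J, UU R a J ∂(axLaw 3) = ENNReal.ofReal ((5/6)^R.card) := by
  have hI : iIndepFun (fun (i : ℕ) (J : ℕ → Fin 3) => ENNReal.ofReal (if J i = a then 1/2 else 1))
      (axLaw 3) :=
    iIndepFun_infinitePi (X := fun _ b => ENNReal.ofReal (if b = a then 1/2 else 1))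
      (fun i => measurable_of_countable _)
  have hm : ∀ i, Measurable (fun (J : ℕ → Fin 3) => ENNReal.ofReal (if J i = a then 1/2 else 1)) :=
    fun i => (measurable_of_countable
      (fun b : Fin 3 => ENNReal.ofReal (if b = a then 1/2 else 1))).comp (measurable_pi_apply i)
  have h := lintegral_prod_eq_prod_lintegral_of_indepFun R _ hI hm
  simp only [E_one] at h
  rw [Finset.prod_const, ← ENNReal.ofReal_pow (by norm_num)] at h
  rw [← h]
  refine lintegral_congr fun J => ?_
  unfold UU
  rw [← ENNReal.ofReal_prod_of_nonneg (fun i _ => by split_ifs <;> norm_num)]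
  congr 1
  rw [Finset.prod_ite, Finset.prod_const, Finset.prod_const_one, mul_one]

lemma E_prod (R M : Finset ℕ) (a b c : Fin 3) :
    ∫⁻ J, ENNReal.ofReal (gw (R.filter fun i => J i = a).card * gw (R.filter fun i => J i = b).card
      * gw (M.filter fun i => J i = c).card) ∂(axLaw 3) ≤
    ENNReal.ofReal (4 * (2^(R.card/8) * (5/6)^R.card) + 27 * (gw R.card)^2 * gw M.card +
      9 * (gw R.card)^2 * (2^(M.card/8) * (5/6)^M.card)) := by
  set n := R.card
  set m := M.card
  have pn := gw_pos n
  have pm := gw_pos m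
  have hpt : ∀ J : ℕ → Fin 3, ENNReal.ofReal (gw (R.filter fun i => J i = a).card *
      gw (R.filter fun i => J i = b).card * gw (M.filter fun i => J i = c).card) ≤
      (ENNReal.ofReal (2^(n/8)) * UU R a J + ENNReal.ofReal (3 * 2^(n/8)) * UU R b J +
      ENNReal.ofReal (27 * (gw n)^2 * gw m)) +
      ENNReal.ofReal (9 * (gw n)^2 * 2^(m/8)) * UU M c J := by
    intro J
    unfold UU
    refine (ENNReal.ofReal_le_ofReal (gw_prod n m _ _ _)).trans ?_
    rw [← ENNReal.ofReal_mul (by positivity), ← ENNReal.ofReal_mul (by positivity),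
      ← ENNReal.ofReal_mul (by positivity), ← ENNReal.ofReal_add (by positivity) (by positivity),
      ← ENNReal.ofReal_add (by positivity) (by positivity),
      ← ENNReal.ofReal_add (by positivity) (by positivity)]
    apply ENNReal.ofReal_le_ofReal
    apply le_of_eq
    ring
  refine (lintegral_mono hpt).trans ?_
  rw [lintegral_add_right _ ((meas_UU M c).const_mul _), lintegral_add_right _ measurable_const,
    lintegral_add_right _ ((meas_UU R b).const_mul _), lintegral_const_mul _ (meas_UU R a),
    lintegral_const_mul _ (meas_UU R b), lintegral_const_mul _ (meas_UU M c), lintegral_const,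
    measure_univ, mul_one, E_UU, E_UU, E_UU]
  rw [← ENNReal.ofReal_mul (by positivity), ← ENNReal.ofReal_mul (by positivity),
      ← ENNReal.ofReal_mul (by positivity), ← ENNReal.ofReal_add (by positivity) (by positivity),
      ← ENNReal.ofReal_add (by positivity) (by positivity),
      ← ENNReal.ofReal_add (by positivity) (by positivity)]
  apply ENNReal.ofReal_le_ofReal
  apply le_of_eq
  ring

end Pool.Agent.V11320.CW
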